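import Mathlib

set_option autoImplicit false

namespace Pool.Agent.Helper206

open Set

/-- A smooth convex function, zero for nonpositive arguments and of slope one past 1. -/
noncomputable def chi (t : ℝ) : ℝ := ∫ s in (0:ℝ)..t, Real.smoothTransition s

/-- The constant `kap` for which `chi t = t - kap` when `t ≥ 1`. -/
noncomputable def kap : ℝ := 1 - chi 1

lemma chi_intInt (a b : ℝ) :
    IntervalIntegrable Real.smoothTransition MeasureTheory.volume a b :=
  Real.smoothTransition.continuous.intervalIntegrable a b

lemma chi_hasDerivAt (t : ℝ) : HasDerivAt chi (Real.smoothTransition t) t :=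
  intervalIntegral.integral_hasDerivAt_right (chi_intInt 0 t)
    (Real.smoothTransition.continuous.stronglyMeasurableAtFilter _ _)
    Real.smoothTransition.continuousAt

lemma chi_contDiff : ContDiff ℝ ((⊤ : ℕ∞) : WithTop ℕ∞) chi := by
  rw [contDiff_infty_iff_deriv]
  refine ⟨fun t => (chi_hasDerivAt t).differentiableAt, ?_⟩
  have : deriv chi = Real.smoothTransition := by
    funext t; exact (chi_hasDerivAt t).deriv
  rw [this]
  exact Real.smoothTransition.contDiff

lemma chi_sub (a b : ℝ) : chi b - chi a = ∫ s in a..b, Real.smoothTransition s := by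
  unfold chi
  rw [intervalIntegral.integral_interval_sub_left (chi_intInt _ _) (chi_intInt _ _)]

lemma chi_tangent (t t0 : ℝ) :
    chi t0 + Real.smoothTransition t0 * (t - t0) ≤ chi t := by
  have h := chi_sub t0 t
  rcases le_total t0 t with hle | hle
  · have : ∫ s in t0..t, Real.smoothTransition t0 ≤ ∫ s in t0..t, Real.smoothTransition s := by
      apply intervalIntegral.integral_mono_on hle (by simp) (chi_intInt _ _)
      intro x hx
      exact Real.smoothTransition.monotone hx.1
    rw [intervalIntegral.integral_const, smul_eq_mul] at this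
    linarith [mul_comm (t - t0) (Real.smoothTransition t0)]
  · have : ∫ s in t..t0, Real.smoothTransition s ≤ ∫ s in t..t0, Real.smoothTransition t0 := by
      apply intervalIntegral.integral_mono_on hle (chi_intInt _ _) (by simp)
      intro x hx
      exact Real.smoothTransition.monotone hx.2
    rw [intervalIntegral.integral_const, smul_eq_mul] at this
    rw [intervalIntegral.integral_symm] at h
    linarith [mul_comm (t0 - t) (Real.smoothTransition t0)]

lemma chi_of_nonpos {t : ℝ} (ht : t ≤ 0) : chi t = 0 := by
  have h := chi_sub t 0
  have h0 : chi 0 = 0 := by simp [chi]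
  have : ∫ s in t..0, Real.smoothTransition s = 0 := by
    rw [intervalIntegral.integral_congr (g := fun _ => (0:ℝ))]
    · simp
    · intro x hx
      rw [uIcc_of_le ht] at hx
      exact Real.smoothTransition.zero_of_nonpos hx.2
  linarith

lemma chi_of_one_le {t : ℝ} (ht : 1 ≤ t) : chi t = t - kap := by
  have h := chi_sub 1 t
  have : ∫ s in (1:ℝ)..t, Real.smoothTransition s = t - 1 := by
    rw [intervalIntegral.integral_congr (g := fun _ => (1:ℝ))]
    · simp
    · intro x hx
      rw [uIcc_of_le ht] at hx
      exact Real.smoothTransition.one_of_one_le hx.1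
  unfold kap
  linarith

lemma chi_mono : Monotone chi := by
  intro a b hab
  have h := chi_tangent b a
  have h2 := Real.smoothTransition.nonneg a
  nlinarith [mul_nonneg h2 (sub_nonneg.2 hab)]

lemma chi_nonneg (t : ℝ) : 0 ≤ chi t := by
  rcases le_total t 0 with h | h
  · rw [chi_of_nonpos h]
  · have := chi_mono h
    rwa [chi_of_nonpos le_rfl] at this

lemma kap_nonneg : 0 ≤ kap := by
  have h := chi_tangent 0 1
  rw [Real.smoothTransition.one_of_one_le le_rfl, chi_of_nonpos le_rfl] at h
  unfold kap
  linarith

lemma kap_le_one : kap ≤ 1 := by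
  have := chi_nonneg 1
  unfold kap
  linarith

end Pool.Agent.Helper206
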