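import Mathlib
import Pool.Agent.Helper206.Chi

set_option autoImplicit false

namespace Pool.Agent.Helper206

open Set Metric Filter Topology

/-- Smooth truncation of `-log x` at height about `T`. -/
noncomputable def lam (T x : ℝ) : ℝ :=
  T - kap - chi (T + Real.log (max x (Real.exp (-T - 1))))

lemma lam_le (T x : ℝ) : lam T x ≤ T - kap := by
  unfold lam
  have := chi_nonneg (T + Real.log (max x (Real.exp (-T - 1))))
  linarith

lemma log_max_nonpos {T x : ℝ} (hT : 1 ≤ T) (hx1 : x ≤ 1) :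
    Real.log (max x (Real.exp (-T - 1))) ≤ 0 := by
  apply Real.log_nonpos
  · exact le_trans (Real.exp_pos _).le (le_max_right _ _)
  · apply max_le hx1
    rw [Real.exp_le_one_iff]; linarith

lemma lam_nonneg {T x : ℝ} (hT : 1 ≤ T) (hx1 : x ≤ 1) : 0 ≤ lam T x := by
  unfold lam
  have h1 := log_max_nonpos hT hx1
  have h2 : chi (T + Real.log (max x (Real.exp (-T - 1)))) ≤ chi T :=
    chi_mono (by linarith)
  rw [chi_of_one_le hT] at h2
  linarith

lemma lam_of_le {T x : ℝ} (hx : x ≤ Real.exp (-T)) : lam T x = T - kap := by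
  unfold lam
  rw [chi_of_nonpos, sub_zero]
  have : max x (Real.exp (-T - 1)) ≤ Real.exp (-T) := by
    apply max_le hx
    apply Real.exp_le_exp.2; linarith
  have h2 := Real.log_le_log (lt_of_lt_of_le (Real.exp_pos (-T-1)) (le_max_right x _)) this
  rw [Real.log_exp] at h2
  linarith

lemma max_eq_of_ge {T x : ℝ} (hx : Real.exp (-T) ≤ x) : max x (Real.exp (-T - 1)) = x := by
  apply max_eq_left
  refine le_trans ?_ hx
  apply Real.exp_le_exp.2; linarith

lemma lam_of_ge {T x : ℝ} (hx : Real.exp (1 - T) ≤ x) : lam T x = - Real.log x := by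
  unfold lam
  have h0 : Real.exp (-T) ≤ x := le_trans (Real.exp_le_exp.2 (by linarith)) hx
  rw [max_eq_of_ge h0, chi_of_one_le]
  · ring
  · have h2 := Real.log_le_log (Real.exp_pos _) hx
    rw [Real.log_exp] at h2
    linarith

lemma lam_tangent (T : ℝ) {x0 : ℝ} :
    ∃ s : ℝ, 0 ≤ s ∧ s ≤ 1 ∧ (s = 0 ∨ 0 < x0) ∧
      ∀ x : ℝ, 0 ≤ x → x ^ s * Real.exp (- lam T x0) ≤ x0 ^ s * Real.exp (- lam T x) := by
  rcases le_or_gt x0 (Real.exp (-T)) with h | h
  · refine ⟨0, le_rfl, zero_le_one, Or.inl rfl, ?_⟩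
    intro x _
    rw [Real.rpow_zero, Real.rpow_zero, one_mul, one_mul, lam_of_le h]
    apply Real.exp_le_exp.2
    linarith [lam_le T x]
  · have hx0pos : 0 < x0 := lt_trans (Real.exp_pos _) h
    have hlog : -T < Real.log x0 := by
      have := Real.log_lt_log (Real.exp_pos _) h
      rwa [Real.log_exp] at this
    refine ⟨Real.smoothTransition (T + Real.log x0), Real.smoothTransition.nonneg _,
      Real.smoothTransition.le_one _, Or.inr hx0pos, ?_⟩
    intro x hx
    set s := Real.smoothTransition (T + Real.log x0) with hs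
    have hspos : 0 < s := Real.smoothTransition.pos_of_pos (by linarith)
    rcases hx.eq_or_lt with hx' | hx'
    · rw [← hx', Real.zero_rpow hspos.ne', zero_mul]
      positivity
    · rw [Real.rpow_def_of_pos hx', Real.rpow_def_of_pos hx0pos, ← Real.exp_add, ← Real.exp_add]
      apply Real.exp_le_exp.2
      have ht := chi_tangent (T + Real.log (max x (Real.exp (-T - 1)))) (T + Real.log x0)
      rw [← hs] at ht
      have hl : Real.log x ≤ Real.log (max x (Real.exp (-T - 1))) :=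
        Real.log_le_log hx' (le_max_left _ _)
      have hm : s * Real.log x ≤ s * Real.log (max x (Real.exp (-T - 1))) :=
        mul_le_mul_of_nonneg_left hl hspos.le
      have e1 : lam T x0 = T - kap - chi (T + Real.log x0) := by
        unfold lam; rw [max_eq_of_ge h.le]
      have e2 : lam T x = T - kap - chi (T + Real.log (max x (Real.exp (-T - 1)))) := rfl
      rw [e1, e2]
      nlinarith

/-- Holomorphic lower approximability of a weight. -/
def PropA (v : ℂ → ℝ) : Prop :=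
  ∀ z0 ∈ ball (0:ℂ) 1, ∀ η : ℝ, 0 < η → ∃ N0 : ℕ, ∀ N : ℕ, N0 ≤ N →
    ∃ g : ℂ → ℂ, DifferentiableOn ℂ g (ball 0 1) ∧
      (∀ z ∈ ball (0:ℂ) 1, ‖g z‖ ≤ Real.exp (N * v z)) ∧
      Real.exp (N * (v z0 - η)) ≤ ‖g z0‖

/-- Local harmonic support from below. -/
def PropS (v : ℂ → ℝ) : Prop :=
  ∀ z0 ∈ ball (0:ℂ) 1, ∃ r : ℝ, 0 < r ∧ ∃ H : ℂ → ℂ, DifferentiableOn ℂ H (ball z0 r) ∧
    (H z0).re = v z0 ∧ ∀ z ∈ ball z0 r, (H z).re ≤ v z

lemma PropA.zero : PropA (fun _ => 0) := by
  intro z0 _ η hη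
  refine ⟨0, fun N _ => ⟨fun _ => 1, differentiableOn_const _, ?_, ?_⟩⟩
  · intro z _; simp
  · simp only [norm_one, Real.exp_le_one_iff]
    have : (0:ℝ) ≤ N := Nat.cast_nonneg N
    nlinarith

lemma PropA.add {v w : ℂ → ℝ} (hv : PropA v) (hw : PropA w) : PropA (fun z => v z + w z) := by
  intro z0 hz0 η hη
  obtain ⟨N1, h1⟩ := hv z0 hz0 (η/2) (by positivity)
  obtain ⟨N2, h2⟩ := hw z0 hz0 (η/2) (by positivity)
  refine ⟨max N1 N2, fun N hN => ?_⟩
  obtain ⟨g1, d1, u1, l1⟩ := h1 N (le_trans (le_max_left _ _) hN)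
  obtain ⟨g2, d2, u2, l2⟩ := h2 N (le_trans (le_max_right _ _) hN)
  refine ⟨fun z => g1 z * g2 z, d1.mul d2, ?_, ?_⟩
  · intro z hz
    rw [norm_mul, mul_add, Real.exp_add]
    exact mul_le_mul (u1 z hz) (u2 z hz) (norm_nonneg _) (Real.exp_pos _).le
  · rw [norm_mul]
    have : (N:ℝ) * (v z0 + w z0 - η) = N * (v z0 - η/2) + N * (w z0 - η/2) := by ring
    rw [this, Real.exp_add]
    exact mul_le_mul l1 l2 (Real.exp_pos _).le (norm_nonneg _)

lemma PropA.sum {v : ℕ → ℂ → ℝ} (hv : ∀ k, PropA (v k)) (J : ℕ) :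
    PropA (fun z => ∑ k ∈ Finset.range J, v k z) := by
  induction J with
  | zero => simpa using PropA.zero
  | succ J ih =>
    simp only [Finset.sum_range_succ]
    exact ih.add (hv J)

lemma PropS.add {v w : ℂ → ℝ} (hv : PropS v) (hw : PropS w) : PropS (fun z => v z + w z) := by
  intro z0 hz0
  obtain ⟨r1, hr1, H1, d1, e1, l1⟩ := hv z0 hz0
  obtain ⟨r2, hr2, H2, d2, e2, l2⟩ := hw z0 hz0
  refine ⟨min r1 r2, lt_min hr1 hr2, fun z => H1 z + H2 z, ?_, ?_, ?_⟩
  · exact (d1.mono (ball_subset_ball (min_le_left _ _))).add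
      (d2.mono (ball_subset_ball (min_le_right _ _)))
  · simp [e1, e2]
  · intro z hz
    have := l1 z (ball_subset_ball (min_le_left _ _) hz)
    have := l2 z (ball_subset_ball (min_le_right _ _) hz)
    simp only [Complex.add_re]
    linarith

lemma PropS.zero : PropS (fun _ => 0) := by
  intro z0 _
  exact ⟨1, one_pos, fun _ => 0, differentiableOn_const _, by simp, by simp⟩

lemma PropS.sum {v : ℕ → ℂ → ℝ} (hv : ∀ k, PropS (v k)) (J : ℕ) :
    PropS (fun z => ∑ k ∈ Finset.range J, v k z) := by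
  induction J with
  | zero => simpa using PropS.zero
  | succ J ih =>
    simp only [Finset.sum_range_succ]
    exact ih.add (hv J)

section well

variable {b : ℂ → ℂ} (hb : DifferentiableOn ℂ b (ball 0 1))

include hb

lemma well_propA {c T : ℝ} (hc : 0 < c) (hb1 : ∀ z ∈ ball (0:ℂ) 1, ‖b z‖ ≤ 1) :
    PropA (fun z => - (c * lam T ‖b z‖)) := by
  intro z0 hz0 η hη
  obtain ⟨s, hs0, hs1, hs, htan⟩ := lam_tangent T (x0 := ‖b z0‖)
  set x0 := ‖b z0‖ with hx0
  have hx0n : 0 ≤ x0 := norm_nonneg _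
  have hx0s : 0 < x0 ^ s := by
    rcases hs with h | h
    · rw [h, Real.rpow_zero]; exact one_pos
    · exact Real.rpow_pos_of_pos h _
  -- choose N0 with x0 ≥ exp(-N η) if x0 > 0
  obtain ⟨N0, hN0⟩ : ∃ N0 : ℕ, ∀ N : ℕ, N0 ≤ N → 0 < x0 → Real.exp (-(N * η)) ≤ x0 := by
    obtain ⟨N0, hN0⟩ := exists_nat_ge (- Real.log x0 / η)
    refine ⟨N0, fun N hN hpos => ?_⟩
    rw [← Real.exp_log hpos]
    apply Real.exp_le_exp.2
    have h1 : - Real.log x0 / η ≤ N := le_trans hN0 (by exact_mod_cast hN)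
    rw [div_le_iff₀ hη] at h1
    linarith
  refine ⟨N0, fun N hN => ?_⟩
  set m : ℕ := ⌈(N:ℝ) * c * s⌉₊ with hm
  have hNcs : 0 ≤ (N:ℝ) * c * s := by positivity
  have hm1 : (N:ℝ) * c * s ≤ m := Nat.le_ceil _
  have hm2 : (m:ℝ) < N * c * s + 1 := Nat.ceil_lt_add_one hNcs
  set κ : ℝ := Real.exp (N * (-(c * lam T x0))) * (x0 ^ s) ^ (-((N:ℝ) * c)) with hκ
  have hκpos : 0 < κ := mul_pos (Real.exp_pos _) (Real.rpow_pos_of_pos hx0s _)
  refine ⟨fun z => (b z) ^ m * (κ : ℂ), (hb.pow m).mul_const _, ?_, ?_⟩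
  · intro z hz
    rw [norm_mul, norm_pow, Complex.norm_real, Real.norm_of_nonneg hκpos.le]
    set x := ‖b z‖ with hx
    have hxn : 0 ≤ x := norm_nonneg _
    have hx1 : x ≤ 1 := hb1 z hz
    have h1 : x ^ m ≤ (x ^ s) ^ ((N:ℝ) * c) := by
      rw [← Real.rpow_mul hxn, ← Real.rpow_natCast]
      rcases hxn.eq_or_lt with h0 | h0
      · rw [← h0]
        rcases hNcs.eq_or_lt with h3 | h3
        · have : s * (N * c) = 0 := by rw [h3]; ring
          rw [this, Real.rpow_zero]
          exact Real.rpow_le_one le_rfl zero_le_one (Nat.cast_nonneg _)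
        · have h4 : 0 < s * (N * c) := by
            have : s * (N * c) = N * c * s := by ring
            rw [this]; exact h3
          rw [Real.zero_rpow h4.ne', Real.zero_rpow]
          have : (0:ℝ) < m := lt_of_lt_of_le h3 hm1
          exact this.ne'
      · apply Real.rpow_le_rpow_of_exponent_ge h0 hx1
        linarith [mul_comm s ((N:ℝ) * c)]
    have h2 : (x ^ s) ^ ((N:ℝ) * c) * Real.exp (N * (-(c * lam T x0)))
        ≤ (x0 ^ s) ^ ((N:ℝ) * c) * Real.exp (N * (-(c * lam T x))) := by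
      have h3 := htan x hxn
      have hp : 0 ≤ (N:ℝ) * c := by positivity
      have h4 := Real.rpow_le_rpow (by positivity) h3 hp
      rw [Real.mul_rpow (by positivity) (Real.exp_pos _).le,
        Real.mul_rpow (by positivity) (Real.exp_pos _).le,
        ← Real.exp_mul, ← Real.exp_mul] at h4
      convert h4 using 3 <;> ring
    have h5 : (x0 ^ s) ^ ((N:ℝ) * c) * (x0 ^ s) ^ (-((N:ℝ) * c)) = 1 := by
      rw [← Real.rpow_add hx0s]; simp
    have h6 : 0 < (x0 ^ s) ^ (-((N:ℝ) * c)) := Real.rpow_pos_of_pos hx0s _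
    calc x ^ m * κ ≤ (x ^ s) ^ ((N:ℝ) * c) * κ := mul_le_mul_of_nonneg_right h1 hκpos.le
      _ = ((x ^ s) ^ ((N:ℝ) * c) * Real.exp (N * (-(c * lam T x0)))) *
            (x0 ^ s) ^ (-((N:ℝ) * c)) := by rw [hκ]; ring
      _ ≤ ((x0 ^ s) ^ ((N:ℝ) * c) * Real.exp (N * (-(c * lam T x)))) *
            (x0 ^ s) ^ (-((N:ℝ) * c)) := mul_le_mul_of_nonneg_right h2 h6.le
      _ = ((x0 ^ s) ^ ((N:ℝ) * c) * (x0 ^ s) ^ (-((N:ℝ) * c))) *
            Real.exp (N * (-(c * lam T x))) := by ring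
      _ = Real.exp (N * (-(c * lam T x))) := by rw [h5, one_mul]
  · simp only
    rw [norm_mul, norm_pow, Complex.norm_real, Real.norm_of_nonneg hκpos.le, ← hx0]
    have e1 : (N:ℝ) * (-(c * lam T x0) - η) = N * (-(c * lam T x0)) + (-(N * η)) := by ring
    rw [e1, Real.exp_add, hκ]
    have key : Real.exp (-(N * η)) ≤ x0 ^ m * (x0 ^ s) ^ (-((N:ℝ) * c)) := by
      rcases hs with h | h
      · have hm0 : m = 0 := by rw [hm, h]; simp
        rw [hm0, h, pow_zero, Real.rpow_zero, Real.one_rpow, mul_one, Real.exp_le_one_iff]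
        have : 0 ≤ (N:ℝ) * η := by positivity
        linarith
      · rw [← Real.rpow_natCast, ← Real.rpow_mul hx0n, ← Real.rpow_add h]
        refine le_trans (hN0 N hN h) ?_
        have hx01 : x0 ≤ 1 := hb1 z0 hz0
        have : x0 ^ (1:ℝ) ≤ x0 ^ ((m:ℝ) + s * (-((N:ℝ) * c))) := by
          apply Real.rpow_le_rpow_of_exponent_ge h hx01
          nlinarith
        rwa [Real.rpow_one] at this
    have := mul_le_mul_of_nonneg_left key (Real.exp_pos (N * (-(c * lam T x0)))).le
    linarith [this]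

lemma well_propS {c T : ℝ} (hc : 0 < c) :
    PropS (fun z => - (c * lam T ‖b z‖)) := by
  intro z0 hz0
  obtain ⟨s, hs0, hs1, hs, htan⟩ := lam_tangent T (x0 := ‖b z0‖)
  rcases hs with h | h
  · refine ⟨1, one_pos, fun _ => ((-(c * lam T ‖b z0‖) : ℝ) : ℂ), differentiableOn_const _, ?_, ?_⟩
    · exact Complex.ofReal_re _
    · intro z _
      rw [Complex.ofReal_re]
      have h1 := htan ‖b z‖ (norm_nonneg _)
      rw [h, Real.rpow_zero, Real.rpow_zero, one_mul, one_mul, Real.exp_le_exp] at h1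
      nlinarith
  · have hb0 : b z0 ≠ 0 := norm_pos_iff.1 h
    have hcont : ContinuousAt (fun z => b z / b z0) z0 :=
      ((hb.differentiableAt (isOpen_ball.mem_nhds hz0)).continuousAt).div_const _
    have hev : ∀ᶠ z in 𝓝 z0, b z / b z0 ∈ Complex.slitPlane := by
      apply hcont.eventually_mem
      rw [div_self hb0]
      exact Complex.isOpen_slitPlane.mem_nhds Complex.one_mem_slitPlane
    have hev2 : ∀ᶠ z in 𝓝 z0, z ∈ ball (0:ℂ) 1 := isOpen_ball.mem_nhds hz0
    obtain ⟨r, hr, hball⟩ := Metric.eventually_nhds_iff_ball.1 (hev.and hev2)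
    refine ⟨r, hr, fun z => ((-(c * lam T ‖b z0‖) : ℝ) : ℂ) + ((c * s : ℝ) : ℂ) *
      Complex.log (b z / b z0), ?_, ?_, ?_⟩
    · intro z hz
      obtain ⟨hz1, hz2⟩ := hball z hz
      apply DifferentiableAt.differentiableWithinAt
      apply DifferentiableAt.add (differentiableAt_const _)
      apply DifferentiableAt.const_mul
      exact ((hb.differentiableAt (isOpen_ball.mem_nhds hz2)).div_const _).clog hz1
    · simp only
      rw [div_self hb0, Complex.log_one, mul_zero, add_zero, Complex.ofReal_re]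
    · intro z hz
      obtain ⟨hz1, hz2⟩ := hball z hz
      have hbz : b z ≠ 0 := by
        intro h0
        rw [h0, zero_div] at hz1
        exact Complex.slitPlane_ne_zero hz1 rfl
      have hx : 0 < ‖b z‖ := norm_pos_iff.2 hbz
      rw [Complex.add_re, Complex.re_ofReal_mul, Complex.ofReal_re, Complex.log_re, norm_div,
        Real.log_div hx.ne' h.ne']
      have h1 := htan ‖b z‖ (norm_nonneg _)
      rw [Real.rpow_def_of_pos hx, Real.rpow_def_of_pos h, ← Real.exp_add, ← Real.exp_add,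
        Real.exp_le_exp] at h1
      have h2 := mul_le_mul_of_nonneg_left h1 hc.le
      linarith [h2]

lemma well_contDiff {c T : ℝ} :
    ContDiffOn ℝ ((⊤ : ℕ∞) : WithTop ℕ∞) (fun z => c * lam T ‖b z‖) (ball 0 1) := by
  intro z0 hz0
  apply ContDiffAt.contDiffWithinAt
  have hbc : ContinuousAt b z0 :=
    (hb.differentiableAt (isOpen_ball.mem_nhds hz0)).continuousAt
  rcases lt_or_ge ‖b z0‖ (Real.exp (-T)) with h | h
  · have hev : (fun z => c * lam T ‖b z‖) =ᶠ[𝓝 z0] fun _ => c * (T - kap) := by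
      have : ∀ᶠ z in 𝓝 z0, ‖b z‖ < Real.exp (-T) :=
        hbc.norm.eventually_lt continuousAt_const h
      filter_upwards [this] with z hz
      rw [lam_of_le hz.le]
    exact contDiffAt_const.congr_of_eventuallyEq hev
  · have hpos : 0 < ‖b z0‖ := lt_of_lt_of_le (Real.exp_pos _) h
    have hbR : ContDiffAt ℝ ((⊤ : ℕ∞) : WithTop ℕ∞) b z0 :=
      ((hb.analyticAt (isOpen_ball.mem_nhds hz0)).contDiffAt).restrict_scalars ℝ
    have hev : (fun z => c * lam T ‖b z‖) =ᶠ[𝓝 z0]
        fun z => c * (T - kap - chi (T + Real.log ‖b z‖)) := by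
      have : ∀ᶠ z in 𝓝 z0, Real.exp (-T - 1) < ‖b z‖ := by
        apply continuousAt_const.eventually_lt hbc.norm
        exact lt_of_lt_of_le (Real.exp_lt_exp.2 (by linarith)) h
      filter_upwards [this] with z hz
      unfold lam
      rw [max_eq_left hz.le]
    refine ContDiffAt.congr_of_eventuallyEq ?_ hev
    apply contDiffAt_const.mul
    apply contDiffAt_const.sub
    apply chi_contDiff.contDiffAt.comp
    apply contDiffAt_const.add
    exact (hbR.norm ℝ (norm_pos_iff.1 hpos)).log hpos.ne'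

end well

end Pool.Agent.Helper206
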