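import Mathlib
import Pool.Agent.Helper206.Well

set_option autoImplicit false

namespace Pool.Agent.Helper206

open Set Metric Filter Topology

/-- The finite Blaschke product with zeros at the `N`-th roots of `s`. -/
noncomputable def bl (s : ℝ) (N : ℕ) (z : ℂ) : ℂ := (z ^ N - s) / (1 - s * z ^ N)

lemma norm_pow_le_one {z : ℂ} (hz : z ∈ ball (0:ℂ) 1) (N : ℕ) : ‖z ^ N‖ ≤ 1 := by
  rw [norm_pow]
  exact pow_le_one₀ (norm_nonneg _) (mem_ball_zero_iff.1 hz).le

lemma one_sub_ne_zero {s : ℝ} (hs0 : 0 < s) (hs1 : s < 1) {N : ℕ} {z : ℂ}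
    (hz : z ∈ ball (0:ℂ) 1) : (1 - s * z ^ N : ℂ) ≠ 0 := by
  intro h
  have h1 : (s * z ^ N : ℂ) = 1 := by linear_combination -h
  have h2 : ‖(s * z ^ N : ℂ)‖ = 1 := by rw [h1]; simp
  rw [norm_mul, Complex.norm_real, Real.norm_of_nonneg hs0.le] at h2
  have := norm_pow_le_one hz N
  nlinarith [norm_nonneg (z ^ N)]

lemma bl_differentiableOn {s : ℝ} (hs0 : 0 < s) (hs1 : s < 1) (N : ℕ) :
    DifferentiableOn ℂ (bl s N) (ball 0 1) := by
  intro z hz
  apply DifferentiableAt.differentiableWithinAt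
  unfold bl
  apply DifferentiableAt.div
  · fun_prop
  · fun_prop
  · exact one_sub_ne_zero hs0 hs1 hz

lemma norm_sub_le_norm_one_sub {s : ℝ} (hs0 : 0 < s) (hs1 : s < 1) {w : ℂ} (hw : ‖w‖ ≤ 1) :
    ‖w - s‖ ≤ ‖1 - s * w‖ := by
  apply le_of_sq_le_sq _ (norm_nonneg _)
  rw [Complex.sq_norm, Complex.sq_norm, Complex.normSq_apply, Complex.normSq_apply]
  have h : w.re * w.re + w.im * w.im ≤ 1 := by
    rw [← Complex.normSq_apply, ← Complex.sq_norm]
    nlinarith [norm_nonneg w]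
  simp only [Complex.sub_re, Complex.sub_im, Complex.ofReal_re, Complex.ofReal_im,
    Complex.one_re, Complex.one_im, Complex.re_ofReal_mul, Complex.im_ofReal_mul]
  nlinarith [mul_nonneg (sub_nonneg.2 h) (sub_nonneg.2 (show s * s ≤ 1 by nlinarith))]

lemma bl_norm_le {s : ℝ} (hs0 : 0 < s) (hs1 : s < 1) {N : ℕ} {z : ℂ}
    (hz : z ∈ ball (0:ℂ) 1) : ‖bl s N z‖ ≤ 1 := by
  unfold bl
  rw [norm_div, div_le_one (norm_pos_iff.2 (one_sub_ne_zero hs0 hs1 hz))]
  exact norm_sub_le_norm_one_sub hs0 hs1 (norm_pow_le_one hz N)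

lemma exists_root_near {r : ℝ} (hr : 0 < r) (hr1 : r < 1) {N : ℕ} (hN : 0 < N) {z : ℂ}
    (hz : ‖z‖ = r) : ∃ a : ℂ, ‖a‖ = r ∧ ‖z - a‖ ≤ 2 * Real.pi / N ∧ a ^ N = ((r ^ N : ℝ) : ℂ) := by
  set θ := Complex.arg z with hθ
  have hNR : (0:ℝ) < N := by exact_mod_cast hN
  have hpi := Real.pi_pos
  set j : ℤ := ⌊θ * N / (2 * Real.pi)⌋ with hj
  set φ : ℝ := 2 * Real.pi * j / N with hφ
  have h1 : (j:ℝ) ≤ θ * N / (2 * Real.pi) := Int.floor_le _
  have h2 : θ * N / (2 * Real.pi) < j + 1 := Int.lt_floor_add_one _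
  rw [le_div_iff₀ (by positivity)] at h1
  rw [div_lt_iff₀ (by positivity)] at h2
  have h3 : |θ - φ| ≤ 2 * Real.pi / N := by
    rw [abs_le]
    constructor
    · have : φ ≤ θ := by
        rw [hφ, div_le_iff₀ hNR]; linarith
      have : 0 ≤ 2 * Real.pi / N := by positivity
      linarith
    · have : θ ≤ φ + 2 * Real.pi / N := by
        rw [hφ, ← add_div, le_div_iff₀ hNR]; linarith
      linarith
  refine ⟨r * Complex.exp (Complex.I * φ), ?_, ?_, ?_⟩
  · rw [norm_mul, Complex.norm_exp_I_mul_ofReal, Complex.norm_real, Real.norm_of_nonneg hr.le,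
      mul_one]
  · have hz2 : z = r * Complex.exp (Complex.I * θ) := by
      conv_lhs => rw [← Complex.norm_mul_exp_arg_mul_I z]
      rw [hz, mul_comm Complex.I]
    rw [hz2, ← mul_sub, norm_mul, Complex.norm_real, Real.norm_of_nonneg hr.le]
    have e1 : Complex.exp (Complex.I * θ) - Complex.exp (Complex.I * φ)
        = Complex.exp (Complex.I * φ) * (Complex.exp (Complex.I * ((θ - φ : ℝ) : ℂ)) - 1) := by
      rw [mul_sub, mul_one, ← Complex.exp_add]
      congr 2
      push_cast; ring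
    rw [e1, norm_mul, Complex.norm_exp_I_mul_ofReal, one_mul]
    have h4 := Real.norm_exp_I_mul_ofReal_sub_one_le (x := θ - φ)
    rw [Real.norm_eq_abs] at h4
    have h5 : ‖Complex.exp (Complex.I * ((θ - φ : ℝ) : ℂ)) - 1‖ ≤ 2 * Real.pi / N := h4.trans h3
    nlinarith [norm_nonneg (Complex.exp (Complex.I * ((θ - φ : ℝ) : ℂ)) - 1)]
  · rw [mul_pow, ← Complex.exp_nat_mul]
    have : (N:ℂ) * (Complex.I * φ) = j * (2 * Real.pi * Complex.I) := by
      rw [hφ]
      have hNC : (N:ℂ) ≠ 0 := by exact_mod_cast hN.ne'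
      push_cast
      field_simp
    rw [this, Complex.exp_int_mul_two_pi_mul_I, mul_one]
    push_cast; rfl

theorem exists_level (r ρ δ K ε : ℝ) (hr : 0 < r) (hr1 : r < 1) (hρ0 : 0 ≤ ρ) (hρ : ρ < r)
    (hδ : 0 < δ) (hε : 0 < ε) :
    ∃ W : ℂ → ℝ, ContDiffOn ℝ ((⊤ : ℕ∞) : WithTop ℕ∞) W (ball 0 1) ∧
      (∀ z ∈ ball (0:ℂ) 1, 0 ≤ W z) ∧
      PropA (fun z => - W z) ∧ PropS (fun z => - W z) ∧
      (∃ H : ℂ → ℂ, DifferentiableOn ℂ H (ball 0 ρ) ∧
        ∀ z ∈ ball (0:ℂ) ρ, (H z).re = W z ∧ ‖H z‖ ≤ ε) ∧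
      (∀ z : ℂ, ‖z‖ = r → ∃ a : ℂ, ‖a‖ = r ∧ ‖z - a‖ ≤ δ ∧ K ≤ W a) := by
  -- choose N
  have hq1 : ρ / r < 1 := (div_lt_one hr).2 hρ
  have hq0 : 0 ≤ ρ / r := div_nonneg hρ0 hr.le
  obtain ⟨N1, hN1⟩ : ∃ N1 : ℕ, (ρ / r) ^ N1 < 1 / 2 :=
    exists_pow_lt_of_lt_one (by norm_num) hq1
  obtain ⟨N2, hN2⟩ := exists_nat_ge (2 * Real.pi / δ)
  set N : ℕ := N1 + N2 + 1 with hN
  have hNpos : 0 < N := by omega
  have hNR : (0:ℝ) < N := by exact_mod_cast hNpos
  have hNa : (ρ / r) ^ N ≤ 1 / 2 := by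
    refine le_trans ?_ hN1.le
    apply pow_le_pow_of_le_one hq0 hq1.le
    omega
  have hNb : 2 * Real.pi / N ≤ δ := by
    rw [div_le_iff₀ hNR]
    rw [div_le_iff₀ hδ] at hN2
    have : (N2:ℝ) ≤ N := by exact_mod_cast (by omega : N2 ≤ N)
    nlinarith
  set s : ℝ := r ^ N with hs
  have hs0 : 0 < s := pow_pos hr N
  have hs1 : s < 1 := pow_lt_one₀ hr.le hr1 hNpos.ne'
  -- choose c
  set c : ℝ := ε / (3 + |Real.log s|) with hc
  have hden : 0 < 3 + |Real.log s| := by positivity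
  have hcpos : 0 < c := div_pos hε hden
  -- choose T
  set T : ℝ := max (max 1 (1 - Real.log (s / 4))) (1 + K / c) with hT
  have hT1 : 1 ≤ T := le_trans (le_max_left _ _) (le_max_left _ _)
  have hT2 : 1 - Real.log (s / 4) ≤ T := le_trans (le_max_right _ _) (le_max_left _ _)
  have hT3 : 1 + K / c ≤ T := le_max_right _ _
  have hdiff := bl_differentiableOn hs0 hs1 N
  have hnorm : ∀ z ∈ ball (0:ℂ) 1, ‖bl s N z‖ ≤ 1 := fun z hz => bl_norm_le hs0 hs1 hz
  refine ⟨fun z => c * lam T ‖bl s N z‖, well_contDiff hdiff, ?_, well_propA hdiff hcpos hnorm,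
    well_propS hdiff hcpos, ?_, ?_⟩
  · intro z hz
    exact mul_nonneg hcpos.le (lam_nonneg hT1 (hnorm z hz))
  · -- holomorphic on the small ball
    have hρ1 : ρ < 1 := hρ.trans hr1
    have key : ∀ z ∈ ball (0:ℂ) ρ, ‖-(z ^ N / (s:ℂ))‖ ≤ 1 / 2 ∧ ‖-((s:ℂ) * z ^ N)‖ ≤ 1 / 2 := by
      intro z hz
      have hz' : ‖z‖ < ρ := mem_ball_zero_iff.1 hz
      have h1 : ‖z‖ ^ N ≤ ρ ^ N := pow_le_pow_left₀ (norm_nonneg _) hz'.le N
      have h2 : ρ ^ N ≤ s / 2 := by
        rw [div_pow, div_le_iff₀ hs0] at hNa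
        linarith
      constructor
      · rw [norm_neg, norm_div, norm_pow, Complex.norm_real, Real.norm_of_nonneg hs0.le,
          div_le_iff₀ hs0]
        linarith
      · rw [norm_neg, norm_mul, norm_pow, Complex.norm_real, Real.norm_of_nonneg hs0.le]
        nlinarith [pow_nonneg (norm_nonneg z) N]
    refine ⟨fun z => -(c:ℂ) * (Complex.log (1 + -(z ^ N / (s:ℂ)))
      - Complex.log (1 + -((s:ℂ) * z ^ N)) + (Real.log s : ℂ)), ?_, ?_⟩
    · intro z hz
      obtain ⟨k1, k2⟩ := key z hz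
      apply DifferentiableAt.differentiableWithinAt
      apply DifferentiableAt.const_mul
      apply DifferentiableAt.add_const
      apply DifferentiableAt.sub
      · apply DifferentiableAt.clog (by fun_prop)
        apply Complex.mem_slitPlane_of_norm_lt_one
        linarith
      · apply DifferentiableAt.clog (by fun_prop)
        apply Complex.mem_slitPlane_of_norm_lt_one
        linarith
    · intro z hz
      obtain ⟨k1, k2⟩ := key z hz
      have hz1 : z ∈ ball (0:ℂ) 1 := ball_subset_ball hρ1.le hz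
      constructor
      · -- real part
        have n1 : (1/2 : ℝ) ≤ ‖1 + -(z ^ N / (s:ℂ))‖ := by
          have := norm_sub_norm_le (1:ℂ) (z ^ N / (s:ℂ))
          rw [norm_neg] at k1
          rw [norm_one] at this
          rw [← sub_eq_add_neg]
          linarith
        have n2 : (1/2 : ℝ) ≤ ‖1 + -((s:ℂ) * z ^ N)‖ := by
          have := norm_sub_norm_le (1:ℂ) ((s:ℂ) * z ^ N)
          rw [norm_neg] at k2
          rw [norm_one] at this
          rw [← sub_eq_add_neg]
          linarith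
        have n3 : ‖1 + -((s:ℂ) * z ^ N)‖ ≤ 2 := by
          have := norm_add_le (1:ℂ) (-((s:ℂ) * z ^ N))
          rw [norm_one] at this
          linarith
        have hbl : ‖bl s N z‖ = s * ‖1 + -(z ^ N / (s:ℂ))‖ / ‖1 + -((s:ℂ) * z ^ N)‖ := by
          have e : bl s N z = - ((s:ℂ) * (1 + -(z ^ N / (s:ℂ)))) / (1 + -((s:ℂ) * z ^ N)) := by
            unfold bl
            have hsC : (s:ℂ) ≠ 0 := by exact_mod_cast hs0.ne'
            congr 1
            field_simp
            ring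
          rw [e, norm_div, norm_neg, norm_mul, Complex.norm_real, Real.norm_of_nonneg hs0.le]
        have hge : Real.exp (1 - T) ≤ ‖bl s N z‖ := by
          have h1 : Real.exp (1 - T) ≤ s / 4 := by
            rw [← Real.exp_log (show 0 < s / 4 by positivity)]
            apply Real.exp_le_exp.2
            linarith
          refine h1.trans ?_
          rw [hbl, le_div_iff₀ (by linarith)]
          nlinarith
        simp only
        rw [lam_of_ge hge, hbl, Real.log_div (by positivity) (by positivity),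
          Real.log_mul hs0.ne' (by positivity)]
        have e2 : (-(c:ℂ)) = ((-c : ℝ) : ℂ) := by push_cast; rfl
        rw [e2, Complex.re_ofReal_mul, Complex.add_re, Complex.sub_re, Complex.log_re,
          Complex.log_re, Complex.ofReal_re]
        ring
      · have l1 := Complex.norm_log_one_add_half_le_self k1
        have l2 := Complex.norm_log_one_add_half_le_self k2
        rw [norm_mul, norm_neg, Complex.norm_real, Real.norm_of_nonneg hcpos.le]
        have l3 : ‖Complex.log (1 + -(z ^ N / (s:ℂ)))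
            - Complex.log (1 + -((s:ℂ) * z ^ N)) + (Real.log s : ℂ)‖ ≤ 3 + |Real.log s| := by
          refine (norm_add_le _ _).trans ?_
          rw [Complex.norm_real, Real.norm_eq_abs]
          have := norm_sub_le (Complex.log (1 + -(z ^ N / (s:ℂ))))
            (Complex.log (1 + -((s:ℂ) * z ^ N)))
          linarith
        calc c * _ ≤ c * (3 + |Real.log s|) := mul_le_mul_of_nonneg_left l3 hcpos.le
          _ = ε := by rw [hc]; field_simp
  · intro z hz
    obtain ⟨a, ha1, ha2, ha3⟩ := exists_root_near hr hr1 hNpos hz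
    refine ⟨a, ha1, ha2.trans hNb, ?_⟩
    have hba : bl s N a = 0 := by
      unfold bl
      rw [ha3, sub_self, zero_div]
    simp only
    rw [hba, norm_zero, lam_of_le (Real.exp_pos _).le]
    have := kap_le_one
    have h1 : K / c ≤ T - kap := by linarith
    rw [div_le_iff₀ hcpos] at h1
    linarith

end Pool.Agent.Helper206
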