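import Mathlib
import Pool.Agent.Helper206.Level

set_option autoImplicit false

namespace Pool.Agent.Helper206

open Set Metric Filter Topology

/-- The radius of the `k`-th circle carrying the wells. -/
noncomputable def rad (k : ℕ) : ℝ := (k + 1) / (k + 2)

/-- The radius of the disc on which the `k`-th summand is small. -/
noncomputable def rin (k : ℕ) : ℝ := k / (k + 1)

lemma rad_pos (k : ℕ) : 0 < rad k := by unfold rad; positivity

lemma rad_lt_one (k : ℕ) : rad k < 1 := by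
  unfold rad
  rw [div_lt_one (by positivity)]
  linarith

lemma rin_nonneg (k : ℕ) : 0 ≤ rin k := by unfold rin; positivity

lemma rin_lt_rad (k : ℕ) : rin k < rad k := by
  unfold rin rad
  rw [div_lt_div_iff₀ (by positivity) (by positivity)]
  nlinarith

lemma rin_mono {j k : ℕ} (h : j ≤ k) : rin j ≤ rin k := by
  unfold rin
  rw [div_le_div_iff₀ (by positivity) (by positivity)]
  have : (j:ℝ) ≤ k := by exact_mod_cast h
  nlinarith

lemma exists_rin {ρ : ℝ} (hρ : ρ < 1) : ∃ J : ℕ, ρ < rin J := by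
  obtain ⟨J, hJ⟩ := exists_nat_gt (1 / (1 - ρ))
  refine ⟨J, ?_⟩
  have h1 : 0 < 1 - ρ := by linarith
  rw [div_lt_iff₀ h1] at hJ
  unfold rin
  rw [lt_div_iff₀ (by positivity)]
  nlinarith

/-- Properties of the weight, packaged. -/
structure IsWeight (U : ℂ → ℝ) : Prop where
  smooth : ContDiffOn ℝ ((⊤ : ℕ∞) : WithTop ℕ∞) U (ball 0 1)
  nonneg : ∀ z ∈ ball (0:ℂ) 1, 0 ≤ U z
  net : ∀ k : ℕ, ∀ z : ℂ, ‖z‖ = rad k →
    ∃ a : ℂ, ‖a‖ = rad k ∧ ‖z - a‖ ≤ 1 / ((k:ℝ) + 2) ^ 2 ∧ (k:ℝ) ≤ U a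
  approx : ∀ ρ : ℝ, ρ < 1 → ∀ z0 ∈ ball (0:ℂ) 1, ∀ η : ℝ, 0 < η →
    ∃ N0 : ℕ, ∀ N : ℕ, N0 ≤ N → ∃ g : ℂ → ℂ, DifferentiableOn ℂ g (ball 0 1) ∧
      (∀ z : ℂ, ‖z‖ ≤ ρ → ‖g z‖ ≤ Real.exp (N * (- U z + η))) ∧
      Real.exp (N * (- U z0 - η)) ≤ ‖g z0‖
  supp : PropS (fun z => - U z)

theorem exists_weight : ∃ U : ℂ → ℝ, IsWeight U := by
  have hex := fun k : ℕ => exists_level (rad k) (rin k) (1 / ((k:ℝ) + 2) ^ 2) k ((1/2:ℝ)^k)
    (rad_pos k) (rad_lt_one k) (rin_nonneg k) (rin_lt_rad k) (by positivity) (by positivity)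
  choose W hsm hnn hA hS hH hnet using hex
  choose H hHd hHW using hH
  -- local decomposition
  have hball : ∀ {J k : ℕ}, J ≤ k → ∀ {z : ℂ}, z ∈ ball (0:ℂ) (rin J) → z ∈ ball (0:ℂ) (rin k) := by
    intro J k hJk z hz
    exact ball_subset_ball (rin_mono hJk) hz
  have hsumgeom : ∀ J : ℕ, Summable (fun k : ℕ => (1/2:ℝ)^(k+J)) := by
    intro J
    exact (summable_nat_add_iff J).2 summable_geometric_two
  have htsumgeom : ∀ J : ℕ, ∑' k : ℕ, (1/2:ℝ)^(k+J) = 2 * (1/2:ℝ)^J := by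
    intro J
    simp_rw [pow_add]
    rw [tsum_mul_right, tsum_geometric_two]
  have hHsum : ∀ J : ℕ, ∀ z ∈ ball (0:ℂ) (rin J), Summable (fun k => H (k+J) z) := by
    intro J z hz
    apply Summable.of_norm_bounded (hsumgeom J)
    intro k
    exact (hHW (k+J) z (hball (by omega) hz)).2
  have hWtail : ∀ J : ℕ, ∀ z ∈ ball (0:ℂ) (rin J), Summable (fun k => W (k+J) z) ∧
      ∑' k, W (k+J) z = (∑' k, H (k+J) z).re := by
    intro J z hz
    have e : (fun k => W (k+J) z) = fun k => (H (k+J) z).re := by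
      funext k
      exact (hHW (k+J) z (hball (by omega) hz)).1.symm
    rw [e]
    refine ⟨?_, ?_⟩
    · exact (Complex.hasSum_re (hHsum J z hz).hasSum).summable
    · rw [Complex.re_tsum (hHsum J z hz), ← e]
  have hWsum : ∀ J : ℕ, ∀ z ∈ ball (0:ℂ) (rin J), Summable (fun k => W k z) := by
    intro J z hz
    exact (summable_nat_add_iff J).1 (hWtail J z hz).1
  have hWsum1 : ∀ z ∈ ball (0:ℂ) 1, Summable (fun k => W k z) := by
    intro z hz
    obtain ⟨J, hJ⟩ := exists_rin (mem_ball_zero_iff.1 hz)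
    exact hWsum J z (mem_ball_zero_iff.2 hJ)
  set U : ℂ → ℝ := fun z => ∑' k, W k z with hU
  have hdec : ∀ J : ℕ, ∀ z ∈ ball (0:ℂ) (rin J),
      U z = ∑ k ∈ Finset.range J, W k z + (∑' k, H (k+J) z).re := by
    intro J z hz
    rw [← (hWtail J z hz).2, hU]
    simp only
    rw [(hWsum J z hz).sum_add_tsum_nat_add J]
  have htaildiff : ∀ J : ℕ, DifferentiableOn ℂ (fun z => ∑' k, H (k+J) z) (ball 0 (rin J)) := by
    intro J
    apply Complex.differentiableOn_tsum_of_summable_norm (hsumgeom J)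
    · intro k
      exact (hHd (k+J)).mono (ball_subset_ball (rin_mono (by omega)))
    · exact isOpen_ball
    · intro k z hz
      exact (hHW (k+J) z (hball (by omega) hz)).2
  have htailnorm : ∀ J : ℕ, ∀ z ∈ ball (0:ℂ) (rin J), ‖∑' k, H (k+J) z‖ ≤ 2 * (1/2:ℝ)^J := by
    intro J z hz
    rw [← htsumgeom J]
    exact tsum_of_norm_bounded (hsumgeom J).hasSum
      (fun k => (hHW (k+J) z (hball (by omega) hz)).2)
  refine ⟨U, ?_, ?_, ?_, ?_, ?_⟩
  · -- smooth
    intro z0 hz0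
    apply ContDiffAt.contDiffWithinAt
    obtain ⟨J, hJ⟩ := exists_rin (mem_ball_zero_iff.1 hz0)
    have hz0J : z0 ∈ ball (0:ℂ) (rin J) := mem_ball_zero_iff.2 hJ
    have hev : U =ᶠ[𝓝 z0] fun z => ∑ k ∈ Finset.range J, W k z + (∑' k, H (k+J) z).re := by
      filter_upwards [isOpen_ball.mem_nhds hz0J] with z hz
      exact hdec J z hz
    refine ContDiffAt.congr_of_eventuallyEq ?_ hev
    apply ContDiffAt.add
    · apply ContDiffAt.sum
      intro k _
      exact (hsm k).contDiffAt (isOpen_ball.mem_nhds hz0)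
    · have h1 : ContDiffAt ℝ ((⊤ : ℕ∞) : WithTop ℕ∞) (fun z => ∑' k, H (k+J) z) z0 :=
        (((htaildiff J).analyticAt (isOpen_ball.mem_nhds hz0J)).contDiffAt).restrict_scalars ℝ
      exact Complex.reCLM.contDiff.contDiffAt.comp z0 h1
  · -- nonneg
    intro z hz
    exact tsum_nonneg (fun k => hnn k z hz)
  · -- net
    intro k z hz
    obtain ⟨a, ha1, ha2, ha3⟩ := hnet k z hz
    refine ⟨a, ha1, ha2, ha3.trans ?_⟩
    have ha : a ∈ ball (0:ℂ) 1 := mem_ball_zero_iff.2 (by rw [ha1]; exact rad_lt_one k)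
    exact (hWsum1 a ha).le_tsum k (fun j _ => hnn j a ha)
  · -- approx
    intro ρ hρ z0 hz0 η hη
    have hmax : max ρ ‖z0‖ < 1 := max_lt hρ (mem_ball_zero_iff.1 hz0)
    obtain ⟨J1, hJ1⟩ := exists_rin hmax
    obtain ⟨J2, hJ2⟩ : ∃ J2 : ℕ, (1/2:ℝ)^J2 < η / 2 :=
      exists_pow_lt_of_lt_one (by positivity) (by norm_num)
    set J := max J1 J2 with hJ
    have hρJ : ρ < rin J := lt_of_le_of_lt (le_max_left _ _)
      (lt_of_lt_of_le hJ1 (rin_mono (le_max_left _ _)))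
    have htl : 2 * (1/2:ℝ)^J ≤ η := by
      have : (1/2:ℝ)^J ≤ (1/2:ℝ)^J2 :=
        pow_le_pow_of_le_one (by norm_num) (by norm_num) (le_max_right _ _)
      linarith
    obtain ⟨N0, hN0⟩ := PropA.sum hA J z0 hz0 η hη
    refine ⟨N0, fun N hN => ?_⟩
    obtain ⟨g, gd, gu, gl⟩ := hN0 N hN
    refine ⟨g, gd, ?_, ?_⟩
    · intro z hz
      have hz1 : z ∈ ball (0:ℂ) 1 := mem_ball_zero_iff.2 (lt_of_le_of_lt hz hρ)
      have hzJ : z ∈ ball (0:ℂ) (rin J) := mem_ball_zero_iff.2 (lt_of_le_of_lt hz hρJ)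
      refine (gu z hz1).trans ?_
      apply Real.exp_le_exp.2
      apply mul_le_mul_of_nonneg_left _ (Nat.cast_nonneg N)
      simp only [Finset.sum_neg_distrib]
      rw [hdec J z hzJ]
      have h2 := (Complex.re_le_norm (∑' k, H (k+J) z)).trans (htailnorm J z hzJ)
      linarith
    · refine le_trans ?_ gl
      apply Real.exp_le_exp.2
      apply mul_le_mul_of_nonneg_left _ (Nat.cast_nonneg N)
      simp only [Finset.sum_neg_distrib]
      have : ∑ k ∈ Finset.range J, W k z0 ≤ U z0 :=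
        (hWsum1 z0 hz0).sum_le_tsum _ (fun k _ => hnn k z0 hz0)
      linarith
  · -- supp
    intro z0 hz0
    obtain ⟨J, hJ⟩ := exists_rin (mem_ball_zero_iff.1 hz0)
    have hz0J : z0 ∈ ball (0:ℂ) (rin J) := mem_ball_zero_iff.2 hJ
    obtain ⟨r, hr, G, Gd, Ge, Gl⟩ := PropS.sum hS J z0 hz0
    obtain ⟨r', hr', hsub⟩ := Metric.isOpen_iff.1 isOpen_ball z0 hz0J
    refine ⟨min r r', lt_min hr hr', fun z => G z + -(∑' k, H (k+J) z), ?_, ?_, ?_⟩
    · apply DifferentiableOn.add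
      · exact Gd.mono (ball_subset_ball (min_le_left _ _))
      · exact ((htaildiff J).mono (Subset.trans (ball_subset_ball (min_le_right _ _)) hsub)).neg
    · simp only
      rw [Complex.add_re, Ge, Complex.neg_re, hdec J z0 hz0J]
      simp only [Finset.sum_neg_distrib]
      ring
    · intro z hz
      have hzJ : z ∈ ball (0:ℂ) (rin J) := hsub (ball_subset_ball (min_le_right _ _) hz)
      have h1 := Gl z (ball_subset_ball (min_le_left _ _) hz)
      simp only at h1 ⊢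
      rw [Complex.add_re, Complex.neg_re, hdec J z hzJ]
      rw [Finset.sum_neg_distrib] at h1
      linarith

end Pool.Agent.Helper206
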