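import Mathlib
import Pool.Agent.Helper206.Weight

set_option autoImplicit false

namespace Pool.Agent.Helper206

open Set Metric Filter Topology

/-- Uniqueness: a bounded holomorphic function on the disc which is small on the nets vanishes. -/
lemma eq_zero_of_small_on_nets {F : ℂ → ℂ} (hF : DifferentiableOn ℂ F (ball 0 1)) {B C : ℝ}
    (hB : ∀ z ∈ ball (0:ℂ) 1, ‖F z‖ ≤ B)
    (hnet : ∀ k : ℕ, ∀ z : ℂ, ‖z‖ = rad k →
      ∃ a : ℂ, ‖a‖ = rad k ∧ ‖z - a‖ ≤ 1 / ((k:ℝ) + 2) ^ 2 ∧ ‖F a‖ ≤ C * Real.exp (-(k:ℝ))) :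
    ∀ z ∈ ball (0:ℂ) 1, F z = 0 := by
  have hB0 : 0 ≤ B := le_trans (norm_nonneg _) (hB 0 (mem_ball_self one_pos))
  intro z hz
  -- bound on each level
  have hlev : ∀ k : ℕ, ‖z‖ < rad k → ‖F z‖ ≤ C * Real.exp (-(k:ℝ)) + 2 * B / ((k:ℝ) + 2) := by
    intro k hk
    have hk2 : (0:ℝ) < (k:ℝ) + 2 := by positivity
    have hrad : rad k = 1 - 1 / ((k:ℝ) + 2) := by
      unfold rad; field_simp; ring
    have hsub : closedBall (0:ℂ) (rad k) ⊆ ball 0 1 :=
      closedBall_subset_ball (rad_lt_one k)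
    -- derivative bound
    have hder : ∀ p ∈ closedBall (0:ℂ) (rad k), ‖deriv F p‖ ≤ 2 * B * ((k:ℝ) + 2) := by
      intro p hp
      have hR : (0:ℝ) < 1 / (2 * ((k:ℝ) + 2)) := by positivity
      have hp' : ‖p‖ ≤ rad k := mem_closedBall_zero_iff.1 hp
      have hlt : ∀ q ∈ closedBall p (1 / (2 * ((k:ℝ) + 2))), q ∈ ball (0:ℂ) 1 := by
        intro q hq
        rw [mem_ball_zero_iff]
        have h1 : ‖q - p‖ ≤ 1 / (2 * ((k:ℝ) + 2)) := by
          rw [mem_closedBall, dist_eq_norm] at hq; exact hq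
        have h2 : ‖q‖ ≤ ‖q - p‖ + ‖p‖ := by
          have := norm_add_le (q - p) p
          rwa [sub_add_cancel] at this
        have h3 : 1 / (2 * ((k:ℝ) + 2)) < 1 / ((k:ℝ) + 2) := by
          apply one_div_lt_one_div_of_lt hk2; linarith
        linarith
      have h := Complex.norm_deriv_le_of_forall_mem_sphere_norm_le (c := p)
        (R := 1 / (2 * ((k:ℝ) + 2))) (C := B) (f := F) hR
        ⟨hF.mono (fun q hq => hlt q (ball_subset_closedBall hq)),
          ?_⟩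
        (fun q hq => hB q (hlt q (sphere_subset_closedBall hq)))
      · refine h.trans (le_of_eq ?_)
        field_simp
      · rw [closure_ball p hR.ne']
        exact hF.continuousOn.mono hlt
    -- bound on the sphere
    have hsph : ∀ y ∈ frontier (ball (0:ℂ) (rad k)),
        ‖F y‖ ≤ C * Real.exp (-(k:ℝ)) + 2 * B / ((k:ℝ) + 2) := by
      intro y hy
      rw [frontier_ball (0:ℂ) (rad_pos k).ne'] at hy
      have hy' : ‖y‖ = rad k := mem_sphere_zero_iff_norm.1 hy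
      obtain ⟨a, ha1, ha2, ha3⟩ := hnet k y hy'
      have hya : ‖F y - F a‖ ≤ 2 * B * ((k:ℝ) + 2) * ‖y - a‖ := by
        apply (convex_closedBall (0:ℂ) (rad k)).norm_image_sub_le_of_norm_deriv_le
          (f := F) (x := a) (y := y)
        · intro q hq
          exact hF.differentiableAt (isOpen_ball.mem_nhds (hsub hq))
        · exact hder
        · exact mem_closedBall_zero_iff.2 ha1.le
        · exact mem_closedBall_zero_iff.2 hy'.le
      have h1 : ‖F y‖ ≤ ‖F a‖ + ‖F y - F a‖ := by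
        have := norm_add_le (F a) (F y - F a)
        rwa [add_sub_cancel] at this
      have h2 : 2 * B * ((k:ℝ) + 2) * ‖y - a‖ ≤ 2 * B / ((k:ℝ) + 2) := by
        calc 2 * B * ((k:ℝ) + 2) * ‖y - a‖ ≤ 2 * B * ((k:ℝ) + 2) * (1 / ((k:ℝ) + 2) ^ 2) :=
              mul_le_mul_of_nonneg_left ha2 (by positivity)
          _ = 2 * B / ((k:ℝ) + 2) := by field_simp
      linarith
    refine Complex.norm_le_of_forall_mem_frontier_norm_le (U := ball (0:ℂ) (rad k))
      isBounded_ball ?_ hsph ?_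
    · refine ⟨hF.mono (ball_subset_closedBall.trans hsub), ?_⟩
      rw [closure_ball (0:ℂ) (rad_pos k).ne']
      exact hF.continuousOn.mono hsub
    · exact subset_closure (mem_ball_zero_iff.2 hk)
  -- let k tend to infinity
  have hev : ∀ᶠ k : ℕ in atTop, ‖F z‖ ≤ C * Real.exp (-(k:ℝ)) + 2 * B / ((k:ℝ) + 2) := by
    obtain ⟨J, hJ⟩ := exists_rin (mem_ball_zero_iff.1 hz)
    filter_upwards [eventually_ge_atTop J] with k hk
    exact hlev k (lt_trans hJ (lt_of_le_of_lt (rin_mono hk) (rin_lt_rad k)))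
  have hlim : Tendsto (fun k : ℕ => C * Real.exp (-(k:ℝ)) + 2 * B / ((k:ℝ) + 2)) atTop
      (𝓝 (C * 0 + 0)) := by
    apply Tendsto.add
    · apply Tendsto.const_mul
      exact Real.tendsto_exp_neg_atTop_nhds_zero.comp tendsto_natCast_atTop_atTop
    · apply Tendsto.const_div_atTop
      exact tendsto_atTop_add_const_right _ _ tendsto_natCast_atTop_atTop
  have h0 : ‖F z‖ ≤ C * 0 + 0 := ge_of_tendsto hlim hev
  rw [mul_zero, add_zero] at h0
  exact norm_le_zero_iff.1 h0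

/-- The Mobius map sending `0` to `a`. -/
noncomputable def mob (a z : ℂ) : ℂ := (z + a) / (1 + (starRingEnd ℂ) a * z)

/-- pseudohyperbolic distance -/
noncomputable def phd (a b : ℂ) : ℝ := ‖a - b‖ / ‖1 - (starRingEnd ℂ) a * b‖

lemma one_add_conj_mul_ne_zero {a z : ℂ} (ha : a ∈ ball (0:ℂ) 1) (hz : z ∈ ball (0:ℂ) 1) :
    (1 + (starRingEnd ℂ) a * z) ≠ 0 := by
  intro h
  have h1 : (starRingEnd ℂ) a * z = -1 := by linear_combination h
  have h2 : ‖(starRingEnd ℂ) a * z‖ = 1 := by rw [h1]; simp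
  rw [norm_mul, RCLike.norm_conj] at h2
  rw [mem_ball_zero_iff] at ha hz
  nlinarith [norm_nonneg a, norm_nonneg z]

lemma one_sub_conj_mul_ne_zero {a z : ℂ} (ha : a ∈ ball (0:ℂ) 1) (hz : z ∈ ball (0:ℂ) 1) :
    (1 - (starRingEnd ℂ) a * z) ≠ 0 := by
  have := one_add_conj_mul_ne_zero ha (z := -z) (by simpa using hz)
  rwa [mul_neg, ← sub_eq_add_neg] at this

lemma normSq_ident (a z : ℂ) :
    Complex.normSq (1 + (starRingEnd ℂ) a * z) - Complex.normSq (z + a)
      = (1 - Complex.normSq a) * (1 - Complex.normSq z) := by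
  simp only [Complex.normSq_apply, Complex.add_re, Complex.add_im, Complex.one_re, Complex.one_im,
    Complex.mul_re, Complex.mul_im, Complex.conj_re, Complex.conj_im]
  ring

lemma norm_lt_of_normSq {u v : ℂ} (h : Complex.normSq u < Complex.normSq v) : ‖u‖ < ‖v‖ := by
  rw [← Complex.sq_norm, ← Complex.sq_norm] at h
  exact lt_of_pow_lt_pow_left₀ 2 (norm_nonneg _) h

lemma normSq_lt_one {a : ℂ} (ha : a ∈ ball (0:ℂ) 1) : Complex.normSq a < 1 := by
  rw [← Complex.sq_norm]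
  rw [mem_ball_zero_iff] at ha
  nlinarith [norm_nonneg a]

lemma mob_mem {a z : ℂ} (ha : a ∈ ball (0:ℂ) 1) (hz : z ∈ ball (0:ℂ) 1) :
    mob a z ∈ ball (0:ℂ) 1 := by
  unfold mob
  rw [mem_ball_zero_iff, norm_div, div_lt_one (norm_pos_iff.2 (one_add_conj_mul_ne_zero ha hz))]
  apply norm_lt_of_normSq
  have h := normSq_ident a z
  have h1 := normSq_lt_one ha
  have h2 := normSq_lt_one hz
  nlinarith [mul_pos (sub_pos.2 h1) (sub_pos.2 h2)]

lemma mob_differentiableOn {a : ℂ} (ha : a ∈ ball (0:ℂ) 1) :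
    DifferentiableOn ℂ (mob a) (ball 0 1) := by
  intro z hz
  apply DifferentiableAt.differentiableWithinAt
  unfold mob
  apply DifferentiableAt.div
  · fun_prop
  · fun_prop
  · exact one_add_conj_mul_ne_zero ha hz

lemma mob_zero (a : ℂ) : mob a 0 = a := by simp [mob]

lemma phd_lt_one {a b : ℂ} (ha : a ∈ ball (0:ℂ) 1) (hb : b ∈ ball (0:ℂ) 1) : phd a b < 1 := by
  unfold phd
  rw [div_lt_one (norm_pos_iff.2 (one_sub_conj_mul_ne_zero ha hb))]
  apply norm_lt_of_normSq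
  have h := normSq_ident (-a) b
  have h1 := normSq_lt_one ha
  have h2 := normSq_lt_one hb
  rw [Complex.normSq_neg, map_neg, neg_mul, ← sub_eq_add_neg, ← sub_eq_add_neg] at h
  rw [← Complex.normSq_neg (a - b), neg_sub]
  nlinarith [mul_pos (sub_pos.2 h1) (sub_pos.2 h2)]

lemma phd_nonneg (a b : ℂ) : 0 ≤ phd a b := by unfold phd; positivity

lemma exists_mob_eq {a b : ℂ} (ha : a ∈ ball (0:ℂ) 1) (hb : b ∈ ball (0:ℂ) 1) :
    ∃ ζ : ℂ, ζ ∈ ball (0:ℂ) 1 ∧ ‖ζ‖ = phd a b ∧ mob a ζ = b := by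
  refine ⟨(b - a) / (1 - (starRingEnd ℂ) a * b), ?_, ?_, ?_⟩
  · rw [mem_ball_zero_iff, norm_div, ← norm_neg (b - a), neg_sub]
    exact phd_lt_one ha hb
  · unfold phd
    rw [norm_div, ← norm_neg (b - a), neg_sub]
  · unfold mob
    have h1 := one_sub_conj_mul_ne_zero ha hb
    have h2 : (1 - (starRingEnd ℂ) a * a) ≠ 0 := one_sub_conj_mul_ne_zero ha ha
    have h3 : (1 + (starRingEnd ℂ) a * ((b - a) / (1 - (starRingEnd ℂ) a * b)))
        = (1 - (starRingEnd ℂ) a * a) / (1 - (starRingEnd ℂ) a * b) := by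
      field_simp; ring
    rw [h3, div_add' _ _ _ h1, div_div_div_cancel_right₀ h1, div_eq_iff h2]
    ring

lemma le_log_of_lt_one {m : ℝ} (h0 : 0 ≤ m) (h1 : m < 1) : m ≤ Real.log ((1 + m) / (1 - m)) := by
  have hp : 0 < (1 + m) / (1 - m) := div_pos (by linarith) (by linarith)
  refine le_trans ?_ (Real.one_sub_inv_le_log_of_pos hp)
  rw [inv_div, le_sub_iff_add_le, ← le_sub_iff_add_le', div_le_iff₀ (by linarith)]
  nlinarith

end Pool.Agent.Helper206
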