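import Mathlib
import Pool.Agent.Helper206.Disc

set_option autoImplicit false

namespace Pool.Agent.Helper206

open Set Metric Filter Topology

/-- Complex Euclidean 2-space. -/
abbrev E2 := EuclideanSpace ℂ (Fin 2)

/-- The Hartogs domain over the unit disc with fibre radius `exp (U z)`. -/
def dom (U : ℂ → ℝ) : Set E2 := {p | ‖p 0‖ < 1 ∧ ‖p 1‖ < Real.exp (U (p 0))}

lemma cont_apply (i : Fin 2) : Continuous (fun p : E2 => p i) := by fun_prop

lemma diff_apply (i : Fin 2) : Differentiable ℂ (fun p : E2 => p i) := by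
  intro p
  exact (EuclideanSpace.proj (𝕜 := ℂ) i).differentiableAt

lemma dom_isOpen {U : ℂ → ℝ} (hU : ContinuousOn U (ball 0 1)) : IsOpen (dom U) := by
  have h1 : IsOpen {p : E2 | ‖p 0‖ < 1} :=
    isOpen_lt (cont_apply 0).norm continuous_const
  have h2 : ContinuousOn (fun p : E2 => Real.exp (U (p 0)) - ‖p 1‖) {p : E2 | ‖p 0‖ < 1} := by
    apply ContinuousOn.sub
    · apply Real.continuous_exp.comp_continuousOn
      apply hU.comp (cont_apply 0).continuousOn
      intro p hp
      exact mem_ball_zero_iff.2 hp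
    · exact (cont_apply 1).norm.continuousOn
  have h3 := h2.isOpen_inter_preimage h1 (isOpen_Ioi (a := (0:ℝ)))
  convert h3 using 1
  ext p
  simp only [dom, mem_ofPred_eq, mem_inter_iff, mem_preimage, mem_Ioi, sub_pos]

/-- The point with coordinates `z, w`. -/
def pt (z w : ℂ) : E2 := !₂[z, w]

@[simp] lemma pt_zero (z w : ℂ) : (pt z w) 0 = z := rfl
@[simp] lemma pt_one (z w : ℂ) : (pt z w) 1 = w := rfl

lemma pt_eta (p : E2) : pt (p 0) (p 1) = p := by
  ext i; fin_cases i <;> rfl

lemma ext2 {p q : E2} (h0 : p 0 = q 0) (h1 : p 1 = q 1) : p = q := by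
  rw [← pt_eta p, ← pt_eta q, h0, h1]

lemma pt_mem {U : ℂ → ℝ} {z w : ℂ} : pt z w ∈ dom U ↔ ‖z‖ < 1 ∧ ‖w‖ < Real.exp (U z) := Iff.rfl

lemma differentiable_pt_left (w : ℂ) : Differentiable ℂ (fun z : ℂ => pt z w) := by
  rw [differentiable_euclidean]
  intro i
  fin_cases i
  · exact differentiable_id
  · exact differentiable_const _

lemma differentiable_pt_right (z : ℂ) : Differentiable ℂ (fun w : ℂ => pt z w) := by
  rw [differentiable_euclidean]
  intro i
  fin_cases i
  · exact differentiable_const _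
  · exact differentiable_id

/-- Bounded holomorphic functions on the domain do not depend on the second variable. -/
theorem bounded_indep {U : ℂ → ℝ} (hU : IsWeight U) {F : E2 → ℂ}
    (hF : DifferentiableOn ℂ F (dom U)) {B : ℝ} (hB : ∀ p ∈ dom U, ‖F p‖ ≤ B)
    {w : ℂ} (hw : ‖w‖ < 1) {z : ℂ} (hz : z ∈ ball (0:ℂ) 1) : F (pt z w) = F (pt z 0) := by
  have hopen := dom_isOpen hU.smooth.continuousOn
  have hmem : ∀ z ∈ ball (0:ℂ) 1, ∀ w : ℂ, ‖w‖ < 1 → pt z w ∈ dom U := by
    intro z hz w hw
    refine ⟨mem_ball_zero_iff.1 hz, lt_of_lt_of_le hw ?_⟩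
    rw [pt_zero]
    exact Real.one_le_exp (hU.nonneg z hz)
  have hB0 : 0 ≤ B := le_trans (norm_nonneg _)
    (hB _ (hmem 0 (mem_ball_self one_pos) 0 (by simp)))
  have hG : DifferentiableOn ℂ (fun z => F (pt z w) - F (pt z 0)) (ball 0 1) := by
    apply DifferentiableOn.sub
    · exact hF.comp (differentiable_pt_left w).differentiableOn (fun z hz => hmem z hz w hw)
    · exact hF.comp (differentiable_pt_left 0).differentiableOn (fun z hz => hmem z hz 0 (by simp))
  have hGB : ∀ z ∈ ball (0:ℂ) 1, ‖F (pt z w) - F (pt z 0)‖ ≤ 2 * B := by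
    intro z hz
    have h1 := norm_sub_le (F (pt z w)) (F (pt z 0))
    have h2 := hB _ (hmem z hz w hw)
    have h3 := hB _ (hmem z hz 0 (by simp))
    linarith
  have key := eq_zero_of_small_on_nets hG hGB (C := 2 * B + 1) ?_ z hz
  · exact sub_eq_zero.1 key
  · intro k y hy
    obtain ⟨a, ha1, ha2, ha3⟩ := hU.net k y hy
    refine ⟨a, ha1, ha2, ?_⟩
    have ha : a ∈ ball (0:ℂ) 1 := mem_ball_zero_iff.2 (by rw [ha1]; exact rad_lt_one k)
    have hR1 : 0 < Real.exp (U a) := Real.exp_pos _
    have hd : DifferentiableOn ℂ (fun w => F (pt a w)) (ball 0 (Real.exp (U a))) := by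
      apply hF.comp (differentiable_pt_right a).differentiableOn
      intro w hw
      exact ⟨mem_ball_zero_iff.1 ha, mem_ball_zero_iff.1 hw⟩
    have hmaps : MapsTo (fun w => F (pt a w)) (ball 0 (Real.exp (U a)))
        (ball (F (pt a 0)) (2 * B + 1)) := by
      intro w hw
      have h2 := hB (pt a w) ⟨mem_ball_zero_iff.1 ha, mem_ball_zero_iff.1 hw⟩
      have h3 := hB _ (hmem a ha 0 (by simp))
      have h1 := norm_sub_le (F (pt a w)) (F (pt a 0))
      rw [mem_ball, dist_eq_norm]
      linarith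
    have hwin : w ∈ ball (0:ℂ) (Real.exp (U a)) := by
      rw [mem_ball_zero_iff]
      exact lt_of_lt_of_le hw (Real.one_le_exp (hU.nonneg a ha))
    have h := Complex.dist_le_div_mul_dist_of_mapsTo_ball hd (by
      intro w hw
      exact ball_subset_closedBall (hmaps hw)) hwin
    rw [dist_eq_norm, dist_zero_right] at h
    refine h.trans ?_
    have h5 : (2 * B + 1) / Real.exp (U a) ≤ (2 * B + 1) * Real.exp (-(k:ℝ)) := by
      rw [div_eq_mul_inv, ← Real.exp_neg]
      apply mul_le_mul_of_nonneg_left _ (by linarith)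
      apply Real.exp_le_exp.2; linarith
    have h6 : 0 ≤ (2 * B + 1) / Real.exp (U a) := by positivity
    nlinarith

end Pool.Agent.Helper206
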