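import Mathlib
import Pool.Agent.Helper206.Domain

set_option autoImplicit false

namespace Pool.Agent.Helper206

open Set Metric Filter Topology

lemma disc_step0 {g : ℂ → E2} (hg : DifferentiableOn ℂ g (ball 0 1))
    (hm : ∀ z ∈ ball (0:ℂ) 1, ‖g z 0‖ < 1) {a b : ℂ} (ha : a ∈ ball (0:ℂ) 1)
    (hb : b ∈ ball (0:ℂ) 1) : ‖g b 0 - g a 0‖ ≤ 2 * phd a b := by
  obtain ⟨ζ, hζ, hζn, hζb⟩ := exists_mob_eq ha hb
  have hmap : MapsTo (mob a) (ball 0 1) (ball 0 1) := fun z hz => mob_mem ha hz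
  have hd : DifferentiableOn ℂ (fun z => g (mob a z) 0) (ball 0 1) :=
    (diff_apply 0).comp_differentiableOn (hg.comp (mob_differentiableOn ha) hmap)
  have h := Complex.dist_le_div_mul_dist_of_mapsTo_ball (R₂ := 2) hd (by
    intro z hz
    rw [mem_closedBall, dist_eq_norm]
    have h1 := hm _ (hmap hz)
    have h2 := hm _ (hmap (mem_ball_self one_pos))
    have h3 := norm_sub_le (g (mob a z) 0) (g (mob a 0) 0)
    linarith) hζ
  rw [dist_eq_norm, dist_zero_right, hζn, hζb, mob_zero] at h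
  linarith

lemma disc_step1 {U : ℂ → ℝ} {g : ℂ → E2} (hg : DifferentiableOn ℂ g (ball 0 1))
    (hm : ∀ z ∈ ball (0:ℂ) 1, g z ∈ dom U) {a b : ℂ} (ha : a ∈ ball (0:ℂ) 1)
    (hb : b ∈ ball (0:ℂ) 1) {ρ R : ℝ} (hρ : ρ < 1) (hga : ‖g a 0‖ ≤ ρ)
    (hR : ∀ z : ℂ, ‖z‖ ≤ (1 + ρ) / 2 → Real.exp (U z) ≤ R) (hab : phd a b < (1 - ρ) / 4) :
    ‖g b 1 - g a 1‖ ≤ 2 * R / ((1 - ρ) / 4) * phd a b := by
  obtain ⟨ζ, hζ, hζn, hζb⟩ := exists_mob_eq ha hb
  have hmap : MapsTo (mob a) (ball 0 1) (ball 0 1) := fun z hz => mob_mem ha hz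
  have hρ0 : 0 ≤ ρ := le_trans (norm_nonneg _) hga
  have hτ : (1 - ρ) / 4 ≤ 1 := by linarith
  have hsub : ball (0:ℂ) ((1 - ρ) / 4) ⊆ ball 0 1 := ball_subset_ball hτ
  have hin : ∀ z ∈ ball (0:ℂ) ((1 - ρ) / 4), ‖g (mob a z) 1‖ ≤ R := by
    intro z hz
    have h1 := disc_step0 hg (fun z hz => (hm z hz).1) ha (hmap (hsub hz))
    have h2 : phd a (mob a z) = ‖z‖ := by
      have hz1 : z ∈ ball (0:ℂ) 1 := hsub hz
      unfold phd mob
      have e1 := one_add_conj_mul_ne_zero ha hz1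
      have e2 : (1 - (starRingEnd ℂ) a * a) ≠ 0 := one_sub_conj_mul_ne_zero ha ha
      have e3 : a - (z + a) / (1 + (starRingEnd ℂ) a * z)
          = - (z * (1 - (starRingEnd ℂ) a * a) / (1 + (starRingEnd ℂ) a * z)) := by
        rw [sub_eq_iff_eq_add, ← sub_eq_iff_eq_add', sub_neg_eq_add, eq_div_iff e1,
          add_mul, div_mul_cancel₀ _ e1]
        ring
      have e4 : 1 - (starRingEnd ℂ) a * ((z + a) / (1 + (starRingEnd ℂ) a * z))
          = (1 - (starRingEnd ℂ) a * a) / (1 + (starRingEnd ℂ) a * z) := by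
        rw [eq_div_iff e1, sub_mul, mul_assoc, div_mul_cancel₀ _ e1]
        ring
      rw [e3, e4, norm_neg, norm_div, norm_div, norm_mul]
      have e5 : ‖1 - (starRingEnd ℂ) a * a‖ ≠ 0 := norm_ne_zero_iff.2 e2
      have e6 : ‖1 + (starRingEnd ℂ) a * z‖ ≠ 0 := norm_ne_zero_iff.2 e1
      field_simp
    rw [h2] at h1
    have h3 : ‖g (mob a z) 0‖ ≤ ‖g a 0‖ + ‖g (mob a z) 0 - g a 0‖ := by
      have := norm_add_le (g a 0) (g (mob a z) 0 - g a 0)
      rwa [add_sub_cancel] at this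
    have h4 : ‖z‖ < (1 - ρ) / 4 := mem_ball_zero_iff.1 hz
    exact (hm _ (hmap (hsub hz))).2.le.trans (hR _ (by linarith))
  have hd : DifferentiableOn ℂ (fun z => g (mob a z) 1) (ball 0 ((1 - ρ) / 4)) :=
    (diff_apply 1).comp_differentiableOn
      ((hg.comp (mob_differentiableOn ha) hmap).mono hsub)
  have hζ' : ζ ∈ ball (0:ℂ) ((1 - ρ) / 4) := by
    rw [mem_ball_zero_iff, hζn]; exact hab
  have hpos : 0 < (1 - ρ) / 4 := by linarith
  have h := Complex.dist_le_div_mul_dist_of_mapsTo_ball (R₂ := 2 * R) hd (by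
    intro z hz
    rw [mem_closedBall, dist_eq_norm]
    have h1 := hin z hz
    have h2 := hin 0 (mem_ball_self hpos)
    have h3 := norm_sub_le (g (mob a z) 1) (g (mob a 0) 1)
    linarith) hζ'
  rw [dist_eq_norm, dist_zero_right, hζn, hζb, mob_zero] at h
  exact h

lemma chain_bound {X : Type*} [PseudoMetricSpace X] : ∀ (k : ℕ) (p : Fin (k + 1) → X)
    (q : Fin k → ℝ), (∀ i, 0 ≤ q i) → (∀ i : Fin k, dist (p i.succ) (p i.castSucc) ≤ q i) →
    ∀ j, dist (p j) (p 0) ≤ ∑ i, q i := by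
  intro k
  induction k with
  | zero =>
    intro p q _ _ j
    have : j = 0 := Fin.ext (by omega)
    rw [this]; simp
  | succ k ih =>
    intro p q hq hp j
    rw [Fin.sum_univ_castSucc]
    have ih' := ih (fun j => p j.castSucc) (fun i => q i.castSucc) (fun i => hq _)
      (fun i => by
        have := hp i.castSucc
        exact this)
    rcases Fin.eq_castSucc_or_eq_last j with ⟨j', rfl⟩ | rfl
    · have := ih' j'
      have h2 := hq (Fin.last k)
      simp only [Fin.castSucc_zero] at this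
      linarith
    · have h1 := ih' (Fin.last k)
      have h2 := hp (Fin.last k)
      have h3 := dist_triangle (p (Fin.last (k + 1))) (p (Fin.last k).castSucc) (p 0)
      simp only [Fin.castSucc_zero] at h1
      rw [Fin.succ_last] at h2
      linarith

/-- Cost of one link of a chain: twice the inverse hyperbolic tangent of the
pseudohyperbolic distance. -/
noncomputable def cost (a b : ℂ) : ℝ :=
  Real.log ((1 + ‖a - b‖ / ‖1 - (starRingEnd ℂ) a * b‖) /
    (1 - ‖a - b‖ / ‖1 - (starRingEnd ℂ) a * b‖))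

lemma phd_le_cost {a b : ℂ} (ha : a ∈ ball (0:ℂ) 1) (hb : b ∈ ball (0:ℂ) 1) :
    phd a b ≤ cost a b :=
  le_log_of_lt_one (phd_nonneg a b) (phd_lt_one ha hb)

/-- Kobayashi hyperbolicity in coordinates, for chains in the domain. -/
theorem hyp_chain {U : ℂ → ℝ} (hU : ContinuousOn U (ball 0 1)) {x y : E2} (hx : x ∈ dom U)
    (hxy : x ≠ y) : ∃ ε : ℝ, 0 < ε ∧ ∀ (k : ℕ) (p : Fin (k + 1) → E2) (g : Fin k → ℂ → E2)
      (a b : Fin k → ℂ), p 0 = x → p (Fin.last k) = y →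
      (∀ i : Fin k, DifferentiableOn ℂ (g i) (ball 0 1) ∧ (∀ z ∈ ball (0:ℂ) 1, g i z ∈ dom U) ∧
        a i ∈ ball (0:ℂ) 1 ∧ b i ∈ ball (0:ℂ) 1 ∧ g i (a i) = p i.castSucc ∧
        g i (b i) = p i.succ) → ε ≤ ∑ i : Fin k, cost (a i) (b i) := by
  -- the first coordinate is controlled
  have h0 : ∀ (k : ℕ) (p : Fin (k + 1) → E2) (g : Fin k → ℂ → E2)
      (a b : Fin k → ℂ), (∀ i : Fin k, DifferentiableOn ℂ (g i) (ball 0 1) ∧
        (∀ z ∈ ball (0:ℂ) 1, g i z ∈ dom U) ∧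
        a i ∈ ball (0:ℂ) 1 ∧ b i ∈ ball (0:ℂ) 1 ∧ g i (a i) = p i.castSucc ∧
        g i (b i) = p i.succ) → ∀ j, dist (p j 0) (p 0 0) ≤ ∑ i, 2 * cost (a i) (b i) := by
    intro k p g a b H
    apply chain_bound k (fun j => p j 0) (fun i => 2 * cost (a i) (b i))
    · intro i
      obtain ⟨-, -, ha, hb, -, -⟩ := H i
      have := phd_le_cost ha hb
      have := phd_nonneg (a i) (b i)
      linarith
    · intro i
      obtain ⟨hg, hm, ha, hb, hga, hgb⟩ := H i
      have h1 := disc_step0 hg (fun z hz => (hm z hz).1) ha hb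
      have h2 := phd_le_cost ha hb
      rw [hga, hgb] at h1
      simp only [dist_eq_norm]
      linarith
  by_cases hz : x 0 = y 0
  · have hw : x 1 ≠ y 1 := fun h => hxy (ext2 hz h)
    have hx0 : ‖x 0‖ < 1 := hx.1
    set ρ : ℝ := (1 + ‖x 0‖) / 2 with hρ
    have hρ1 : ρ < 1 := by linarith
    have hρx : ‖x 0‖ < ρ := by linarith
    have hρ0 : 0 ≤ ρ := by positivity
    have hsub : closedBall (0:ℂ) ((1 + ρ) / 2) ⊆ ball 0 1 :=
      closedBall_subset_ball (by linarith)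
    obtain ⟨R, hRpos, hR⟩ : ∃ R : ℝ, 0 < R ∧ ∀ z : ℂ, ‖z‖ ≤ (1 + ρ) / 2 → Real.exp (U z) ≤ R := by
      obtain ⟨R, hR⟩ := (isCompact_closedBall (0:ℂ) ((1 + ρ) / 2)).bddAbove_image
        (f := fun z => Real.exp (U z)) (Real.continuous_exp.comp_continuousOn (hU.mono hsub))
      refine ⟨max R 1, lt_of_lt_of_le one_pos (le_max_right _ _), fun z hz => ?_⟩
      refine le_trans ?_ (le_max_left _ _)
      exact hR (mem_image_of_mem _ (mem_closedBall_zero_iff.2 hz))
    set τ : ℝ := (1 - ρ) / 4 with hτ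
    have hτpos : 0 < τ := by linarith
    have hwpos : 0 < ‖x 1 - y 1‖ := norm_pos_iff.2 (sub_ne_zero.2 hw)
    set ε : ℝ := min (min (τ / 2) ((ρ - ‖x 0‖) / 2)) (‖x 1 - y 1‖ / (2 * (2 * R / τ))) with hε
    have hεpos : 0 < ε := by
      apply lt_min (lt_min (by positivity) (by linarith)) (by positivity)
    refine ⟨ε, hεpos, ?_⟩
    intro k p g a b hp0 hpl H
    by_contra hcon
    push Not at hcon
    have hε1 : ε ≤ τ / 2 := (min_le_left _ _).trans (min_le_left _ _)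
    have hε2 : ε ≤ (ρ - ‖x 0‖) / 2 := (min_le_left _ _).trans (min_le_right _ _)
    have hε3 : ε ≤ ‖x 1 - y 1‖ / (2 * (2 * R / τ)) := min_le_right _ _
    have hcnn : ∀ i, 0 ≤ cost (a i) (b i) := by
      intro i
      obtain ⟨-, -, ha, hb, -, -⟩ := H i
      exact (phd_nonneg (a i) (b i)).trans (phd_le_cost ha hb)
    have hsingle : ∀ i, phd (a i) (b i) < τ := by
      intro i
      obtain ⟨-, -, ha, hb, -, -⟩ := H i
      have h1 := phd_le_cost ha hb
      have h2 : cost (a i) (b i) ≤ ∑ i, cost (a i) (b i) :=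
        Finset.single_le_sum (fun i _ => hcnn i) (Finset.mem_univ i)
      linarith
    have hball : ∀ j, ‖p j 0‖ ≤ ρ := by
      intro j
      have h1 := h0 k p g a b H j
      rw [← Finset.mul_sum, hp0, dist_eq_norm] at h1
      have h2 : ‖p j 0‖ ≤ ‖x 0‖ + ‖p j 0 - x 0‖ := by
        have := norm_add_le (x 0) (p j 0 - x 0)
        rwa [add_sub_cancel] at this
      linarith
    have hfin := chain_bound k (fun j => p j 1) (fun i => 2 * R / τ * cost (a i) (b i))
      (fun i => mul_nonneg (by positivity) (hcnn i)) (by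
        intro i
        obtain ⟨hg, hm, ha, hb, hga, hgb⟩ := H i
        have h1 := disc_step1 hg hm ha hb hρ1 (by rw [hga]; exact hball _) hR (hsingle i)
        rw [hga, hgb] at h1
        simp only [dist_eq_norm]
        refine h1.trans ?_
        exact mul_le_mul_of_nonneg_left (phd_le_cost ha hb) (by positivity)) (Fin.last k)
    simp only at hfin
    rw [hpl, hp0, ← Finset.mul_sum, dist_eq_norm, norm_sub_rev] at hfin
    have hc : 0 < 2 * R / τ := by positivity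
    have h4 : 2 * R / τ * ∑ i, cost (a i) (b i) < ‖x 1 - y 1‖ := by
      calc 2 * R / τ * ∑ i, cost (a i) (b i) < 2 * R / τ * ε :=
            mul_lt_mul_of_pos_left hcon hc
        _ ≤ 2 * R / τ * (‖x 1 - y 1‖ / (2 * (2 * R / τ))) :=
            mul_le_mul_of_nonneg_left hε3 hc.le
        _ = ‖x 1 - y 1‖ / 2 := by field_simp
        _ < ‖x 1 - y 1‖ := by linarith
    linarith
  · have hpos : 0 < ‖x 0 - y 0‖ := norm_pos_iff.2 (sub_ne_zero.2 hz)
    refine ⟨‖x 0 - y 0‖ / 2, by positivity, ?_⟩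
    intro k p g a b hp0 hpl H
    have h1 := h0 k p g a b H (Fin.last k)
    rw [hp0, hpl, ← Finset.mul_sum, dist_eq_norm, norm_sub_rev] at h1
    linarith

end Pool.Agent.Helper206
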