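import Mathlib
import Pool.Agent.Helper206.Hyp

set_option autoImplicit false

namespace Pool.Agent.Helper206

open Set Metric Filter Topology

/-- The holomorphic hull of a nonempty compact set lies in a compact subset of the domain. -/
theorem hull_subset {U : ℂ → ℝ} (hU : IsWeight U) {K : Set E2} (hK : IsCompact K)
    (hKd : K ⊆ dom U) (hne : K.Nonempty) : ∃ L : Set E2, IsCompact L ∧ L ⊆ dom U ∧
      ∀ x ∈ dom U, (∀ F : E2 → ℂ, DifferentiableOn ℂ F (dom U) →
        ∀ c : ℝ, (∀ y ∈ K, ‖F y‖ ≤ c) → ‖F x‖ ≤ c) → x ∈ L := by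
  have hUc := hU.smooth.continuousOn
  -- maxima over K
  obtain ⟨p1, hp1, hmax1⟩ := hK.exists_isMaxOn hne (f := fun p : E2 => ‖p 0‖)
    (cont_apply 0).norm.continuousOn
  have hc2 : ContinuousOn (fun p : E2 => ‖p 1‖ * Real.exp (- U (p 0))) K := by
    apply ContinuousOn.mul (cont_apply 1).norm.continuousOn
    apply Real.continuous_exp.comp_continuousOn
    apply ContinuousOn.neg
    apply hUc.comp (cont_apply 0).continuousOn
    intro p hp
    exact mem_ball_zero_iff.2 (hKd hp).1
  obtain ⟨p2, hp2, hmax2⟩ := hK.exists_isMaxOn hne hc2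
  set ρ : ℝ := ‖p1 0‖ with hρ
  have hρ1 : ρ < 1 := (hKd hp1).1
  have hρK : ∀ p ∈ K, ‖p 0‖ ≤ ρ := fun p hp => hmax1 hp
  set s0 : ℝ := ‖p2 1‖ * Real.exp (- U (p2 0)) with hs0
  have hs01 : s0 < 1 := by
    have := (hKd hp2).2
    rw [hs0, Real.exp_neg, ← div_eq_mul_inv, div_lt_one (Real.exp_pos _)]
    exact this
  have hs0K : ∀ p ∈ K, ‖p 1‖ * Real.exp (- U (p 0)) ≤ s0 := fun p hp => hmax2 hp
  set s1 : ℝ := max s0 (1/2) with hs1
  have hs1pos : 0 < s1 := lt_of_lt_of_le (by norm_num) (le_max_right _ _)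
  have hs11 : s1 < 1 := max_lt hs01 (by norm_num)
  set s2 : ℝ := (1 + s1) / 2 with hs2
  have hs12 : s1 < s2 := by linarith
  have hs21 : s2 < 1 := by linarith
  have hs2pos : 0 < s2 := by linarith
  -- the compact set
  refine ⟨(fun q : ℂ × ℂ => pt q.1 ((Real.exp (U q.1) : ℂ) * q.2)) ''
    (closedBall (0:ℂ) ρ ×ˢ closedBall (0:ℂ) s2), ?_, ?_, ?_⟩
  · apply ((isCompact_closedBall (0:ℂ) ρ).prod (isCompact_closedBall (0:ℂ) s2)).image_of_continuousOn
    have hsub : closedBall (0:ℂ) ρ ⊆ ball 0 1 := closedBall_subset_ball hρ1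
    have h1 : ContinuousOn (fun q : ℂ × ℂ => U q.1)
        (closedBall (0:ℂ) ρ ×ˢ closedBall (0:ℂ) s2) :=
      hUc.comp continuous_fst.continuousOn (fun q hq => hsub hq.1)
    have h2 : ContinuousOn (fun q : ℂ × ℂ => ((Real.exp (U q.1) : ℝ) : ℂ) * q.2)
        (closedBall (0:ℂ) ρ ×ˢ closedBall (0:ℂ) s2) := by
      apply ContinuousOn.mul
      · exact Complex.continuous_ofReal.comp_continuousOn
          (Real.continuous_exp.comp_continuousOn h1)
      · exact continuous_snd.continuousOn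
    unfold pt
    apply (PiLp.continuous_toLp 2 (fun _ : Fin 2 => ℂ)).comp_continuousOn
    apply continuousOn_pi.2
    intro i
    fin_cases i
    · exact continuous_fst.continuousOn
    · exact h2
  · rintro _ ⟨q, hq, rfl⟩
    refine ⟨lt_of_le_of_lt (mem_closedBall_zero_iff.1 hq.1) hρ1, ?_⟩
    simp only [pt_zero, pt_one]
    rw [norm_mul, Complex.norm_real, Real.norm_of_nonneg (Real.exp_pos _).le]
    have := mem_closedBall_zero_iff.1 hq.2
    have h2 := Real.exp_pos (U q.1)
    nlinarith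
  · intro x hx hF
    have hx0 : ‖x 0‖ ≤ ρ := hF (fun p => p 0) (diff_apply 0).differentiableOn ρ hρK
    have hx0b : x 0 ∈ ball (0:ℂ) 1 := mem_ball_zero_iff.2 hx.1
    have hx1 : ‖x 1‖ * Real.exp (- U (x 0)) ≤ s2 := by
      by_contra hcon
      push Not at hcon
      set η : ℝ := Real.log (s2 / s1) / 2 with hη
      have hηpos : 0 < η := by
        have : 0 < Real.log (s2 / s1) := Real.log_pos (by rw [lt_div_iff₀ hs1pos]; linarith)
        positivity
      have hη2 : Real.exp η * Real.exp η = s2 / s1 := by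
        rw [← Real.exp_add, hη, add_halves, Real.exp_log (by positivity)]
      obtain ⟨N0, hN0⟩ := hU.approx ρ hρ1 (x 0) hx0b η hηpos
      set N : ℕ := max N0 1 with hN
      have hN1 : N ≠ 0 := by
        have : 1 ≤ N := le_max_right _ _
        omega
      obtain ⟨g, gd, gu, gl⟩ := hN0 N (le_max_left _ _)
      have hGd : DifferentiableOn ℂ (fun p : E2 => (p 1) ^ N * g (p 0)) (dom U) := by
        apply DifferentiableOn.mul
        · exact ((diff_apply 1).pow N).differentiableOn
        · apply gd.comp (diff_apply 0).differentiableOn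
          intro p hp
          exact mem_ball_zero_iff.2 hp.1
      have hGK : ∀ y ∈ K, ‖(y 1) ^ N * g (y 0)‖ ≤ (s1 * Real.exp η) ^ N := by
        intro y hy
        rw [norm_mul, norm_pow]
        have h1 := gu (y 0) (hρK y hy)
        have h2 := (hs0K y hy).trans (le_max_left _ _ : s0 ≤ s1)
        calc ‖y 1‖ ^ N * ‖g (y 0)‖ ≤ ‖y 1‖ ^ N * Real.exp (N * (- U (y 0) + η)) :=
              mul_le_mul_of_nonneg_left h1 (by positivity)
          _ = (‖y 1‖ * Real.exp (- U (y 0)) * Real.exp η) ^ N := by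
              rw [Real.exp_nat_mul, Real.exp_add]; ring
          _ ≤ (s1 * Real.exp η) ^ N := by
              apply pow_le_pow_left₀ (by positivity)
              exact mul_le_mul_of_nonneg_right h2 (Real.exp_pos _).le
      have hGx := hF _ hGd _ hGK
      rw [norm_mul, norm_pow] at hGx
      have hlow : (‖x 1‖ * Real.exp (- U (x 0)) * Real.exp (-η)) ^ N ≤ ‖x 1‖ ^ N * ‖g (x 0)‖ := by
        calc (‖x 1‖ * Real.exp (- U (x 0)) * Real.exp (-η)) ^ N
            = ‖x 1‖ ^ N * Real.exp (N * (- U (x 0) - η)) := by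
              rw [Real.exp_nat_mul, sub_eq_add_neg, Real.exp_add]; ring
          _ ≤ ‖x 1‖ ^ N * ‖g (x 0)‖ := mul_le_mul_of_nonneg_left gl (by positivity)
      have h3 : (‖x 1‖ * Real.exp (- U (x 0)) * Real.exp (-η)) ≤ s1 * Real.exp η :=
        le_of_pow_le_pow_left₀ hN1 (by positivity) (hlow.trans hGx)
      have h4 : s2 * Real.exp (-η) < ‖x 1‖ * Real.exp (- U (x 0)) * Real.exp (-η) :=
        mul_lt_mul_of_pos_right hcon (Real.exp_pos _)
      have h5 : s2 * Real.exp (-η) = s1 * Real.exp η := by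
        rw [Real.exp_neg]
        have h6 : s2 = s1 * (Real.exp η * Real.exp η) := by
          rw [hη2]; field_simp
        rw [h6]
        have := (Real.exp_pos η).ne'
        field_simp
      linarith
    refine ⟨(x 0, ((Real.exp (- U (x 0)) : ℝ) : ℂ) * x 1), ⟨?_, ?_⟩, ?_⟩
    · exact mem_closedBall_zero_iff.2 hx0
    · rw [mem_closedBall_zero_iff]
      simp only
      rw [norm_mul, Complex.norm_real, Real.norm_of_nonneg (Real.exp_pos _).le, mul_comm]
      exact hx1
    · apply ext2
      · rfl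
      · simp only [pt_one]
        rw [← mul_assoc, ← Complex.ofReal_mul, ← Real.exp_add, add_neg_cancel, Real.exp_zero,
          Complex.ofReal_one, one_mul]

end Pool.Agent.Helper206
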