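import Mathlib
import Pool.Agent.Helper206.Conv

set_option autoImplicit false

namespace Pool.Agent.Helper206

open Set Metric Filter Topology
open scoped Manifold

/-- A fixed weight. -/
noncomputable def U0 : ℂ → ℝ := Classical.choose exists_weight

lemma hU0 : IsWeight U0 := Classical.choose_spec exists_weight

/-- The Hartogs domain as a type. -/
def M0 : Type := ↥(dom U0)

noncomputable instance : TopologicalSpace M0 := instTopologicalSpaceSubtype

/-- The inclusion. -/
noncomputable def M0.val (x : M0) : E2 := Subtype.val x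

lemma M0.mem (x : M0) : x.val ∈ dom U0 := x.property

/-- Points of the domain as points of the manifold. -/
noncomputable def M0.mk (p : E2) (hp : p ∈ dom U0) : M0 := ⟨p, hp⟩

@[simp] lemma M0.val_mk (p : E2) (hp : p ∈ dom U0) : (M0.mk p hp).val = p := rfl

lemma M0.ext {x y : M0} (h : x.val = y.val) : x = y := Subtype.ext h

lemma M0.isOpenEmbedding : IsOpenEmbedding M0.val :=
  (dom_isOpen hU0.smooth.continuousOn).isOpenEmbedding_subtypeVal

lemma M0.range : Set.range M0.val = dom U0 := Subtype.range_val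

lemma zero_mem : pt 0 0 ∈ dom U0 := by
  rw [pt_mem]; simp [Real.exp_pos]

instance : Nonempty M0 := ⟨M0.mk _ zero_mem⟩

noncomputable instance : ChartedSpace E2 M0 := M0.isOpenEmbedding.singletonChartedSpace

instance : IsManifold 𝓘(ℂ, E2) ⊤ M0 := M0.isOpenEmbedding.isManifold_singleton

lemma M0.chartAt_eq (x : M0) :
    (chartAt E2 x : OpenPartialHomeomorph M0 E2) =
      M0.isOpenEmbedding.toOpenPartialHomeomorph M0.val := rfl

lemma M0.chartAt_coe (x : M0) : ⇑(chartAt E2 x : OpenPartialHomeomorph M0 E2) = M0.val := rfl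

lemma M0.chartAt_target (x : M0) :
    (chartAt E2 x : OpenPartialHomeomorph M0 E2).target = dom U0 := by
  rw [M0.chartAt_eq, IsOpenEmbedding.toOpenPartialHomeomorph_target, M0.range]

lemma M0.chartAt_source (x : M0) :
    (chartAt E2 x : OpenPartialHomeomorph M0 E2).source = Set.univ := rfl

lemma M0.chartAt_symm (x : M0) {p : E2} (hp : p ∈ dom U0) :
    (chartAt E2 x : OpenPartialHomeomorph M0 E2).symm p = M0.mk p hp := by
  have h := (chartAt E2 x : OpenPartialHomeomorph M0 E2).left_inv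
    (x := M0.mk p hp) (by rw [M0.chartAt_source]; trivial)
  rwa [M0.chartAt_coe, M0.val_mk] at h

lemma M0.contMDiff_val : ContMDiff 𝓘(ℂ, E2) 𝓘(ℂ, E2) ⊤ M0.val :=
  contMDiff_isOpenEmbedding M0.isOpenEmbedding

lemma M0.mdifferentiable_val : MDifferentiable 𝓘(ℂ, E2) 𝓘(ℂ, E2) M0.val :=
  M0.contMDiff_val.mdifferentiable (by simp)

lemma M0.mdiff_of {F : E2 → ℂ} (hF : DifferentiableOn ℂ F (dom U0)) :
    MDifferentiable 𝓘(ℂ, E2) 𝓘(ℂ, ℂ) (fun x : M0 => F x.val) := by
  intro x
  have h1 : MDifferentiableAt 𝓘(ℂ, E2) 𝓘(ℂ, ℂ) F x.val :=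
    (hF.differentiableAt
      ((dom_isOpen hU0.smooth.continuousOn).mem_nhds x.mem)).mdifferentiableAt
  exact h1.comp x (M0.mdifferentiable_val x)

lemma M0.exists_ext {f : M0 → ℂ} (hf : MDifferentiable 𝓘(ℂ, E2) 𝓘(ℂ, ℂ) f) :
    ∃ F : E2 → ℂ, DifferentiableOn ℂ F (dom U0) ∧ ∀ x : M0, F x.val = f x := by
  refine ⟨fun p => f ((M0.isOpenEmbedding.toOpenPartialHomeomorph M0.val).symm p), ?_, ?_⟩
  · rw [← mdifferentiableOn_iff_differentiableOn, ← M0.range]
    exact hf.comp_mdifferentiableOn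
      ((contMDiffOn_isOpenEmbedding_symm (n := 1) M0.isOpenEmbedding).mdifferentiableOn (by simp))
  · intro x
    simp only
    rw [IsOpenEmbedding.toOpenPartialHomeomorph_left_inv]

lemma M0.disc {g : ℂ → M0} (hg : MDifferentiableOn 𝓘(ℂ, ℂ) 𝓘(ℂ, E2) g (ball (0:ℂ) 1)) :
    DifferentiableOn ℂ (fun z => (g z).val) (ball 0 1) := by
  rw [← mdifferentiableOn_iff_differentiableOn]
  exact M0.mdifferentiable_val.comp_mdifferentiableOn hg

lemma M0.mfderiv_inj (x : M0) :
    Function.Injective (mfderiv 𝓘(ℂ, E2) 𝓘(ℂ, E2) M0.val x) := by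
  have : IsManifold 𝓘(ℂ, E2) 1 M0 := IsManifold.of_le (n := ⊤) (by simp)
  have h := (mdifferentiable_chart (I := 𝓘(ℂ, E2)) x).mfderiv_injective
    (show x ∈ (chartAt E2 x : OpenPartialHomeomorph M0 E2).source by
      rw [M0.chartAt_source]; trivial)
  exact h

end Pool.Agent.Helper206
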