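import Mathlib
import Pool.Agent.Helper206.Mfd

set_option autoImplicit false

namespace Pool.Agent.Helper206

open Set Metric Filter Topology
open scoped Manifold

/-- plane onto disc -/
noncomputable def al (z : ℂ) : ℂ := (OpenPartialHomeomorph.univUnitBall : OpenPartialHomeomorph ℂ ℂ) z

/-- disc onto plane -/
noncomputable def be (z : ℂ) : ℂ :=
  (OpenPartialHomeomorph.univUnitBall : OpenPartialHomeomorph ℂ ℂ).symm z

lemma al_mem (z : ℂ) : al z ∈ ball (0:ℂ) 1 :=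
  (OpenPartialHomeomorph.univUnitBall : OpenPartialHomeomorph ℂ ℂ).map_source (x := z) trivial

lemma be_al (z : ℂ) : be (al z) = z :=
  (OpenPartialHomeomorph.univUnitBall : OpenPartialHomeomorph ℂ ℂ).left_inv (x := z) trivial

lemma al_be {z : ℂ} (hz : z ∈ ball (0:ℂ) 1) : al (be z) = z :=
  (OpenPartialHomeomorph.univUnitBall : OpenPartialHomeomorph ℂ ℂ).right_inv hz

lemma al_contDiff : ContDiff ℝ ((⊤ : ℕ∞) : WithTop ℕ∞) al :=
  OpenPartialHomeomorph.contDiff_univUnitBall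

lemma be_contDiffOn : ContDiffOn ℝ ((⊤ : ℕ∞) : WithTop ℕ∞) be (ball 0 1) :=
  OpenPartialHomeomorph.contDiffOn_univUnitBall_symm

/-- forward map -/
noncomputable def fwd (p : E2) : E2 :=
  pt (be (p 0)) (be (((Real.exp (- U0 (p 0)) : ℝ) : ℂ) * p 1))

/-- backward map -/
noncomputable def bwd (q : E2) : E2 :=
  pt (al (q 0)) (((Real.exp (U0 (al (q 0))) : ℝ) : ℂ) * al (q 1))

lemma bwd_mem (q : E2) : bwd q ∈ dom U0 := by
  refine ⟨mem_ball_zero_iff.1 (al_mem _), ?_⟩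
  unfold bwd
  simp only [pt_zero, pt_one]
  rw [norm_mul, Complex.norm_real, Real.norm_of_nonneg (Real.exp_pos _).le]
  have h1 := mem_ball_zero_iff.1 (al_mem (q 1))
  have h2 := Real.exp_pos (U0 (al (q 0)))
  nlinarith

lemma scaled_mem {p : E2} (hp : p ∈ dom U0) :
    ((Real.exp (- U0 (p 0)) : ℝ) : ℂ) * p 1 ∈ ball (0:ℂ) 1 := by
  rw [mem_ball_zero_iff, norm_mul, Complex.norm_real, Real.norm_of_nonneg (Real.exp_pos _).le,
    Real.exp_neg, inv_mul_lt_iff₀ (Real.exp_pos _), mul_one]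
  exact hp.2

lemma fwd_bwd (q : E2) : fwd (bwd q) = q := by
  unfold fwd bwd
  apply ext2
  · simp only [pt_zero]
    exact be_al _
  · simp only [pt_zero, pt_one]
    rw [← mul_assoc, ← Complex.ofReal_mul, ← Real.exp_add, neg_add_cancel, Real.exp_zero,
      Complex.ofReal_one, one_mul, be_al]

lemma bwd_fwd {p : E2} (hp : p ∈ dom U0) : bwd (fwd p) = p := by
  have h0 : al (be (p 0)) = p 0 := al_be (mem_ball_zero_iff.2 hp.1)
  unfold fwd bwd
  apply ext2
  · simp only [pt_zero]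
    exact h0
  · simp only [pt_zero, pt_one]
    rw [h0, al_be (scaled_mem hp), ← mul_assoc, ← Complex.ofReal_mul, ← Real.exp_add,
      add_neg_cancel, Real.exp_zero, Complex.ofReal_one, one_mul]

lemma contDiff_apply' (i : Fin 2) : ContDiff ℝ ((⊤ : ℕ∞) : WithTop ℕ∞) (fun p : E2 => p i) := by
  have : ContDiff ℂ ((⊤ : ℕ∞) : WithTop ℕ∞) (fun p : E2 => p i) :=
    (EuclideanSpace.proj (𝕜 := ℂ) i : E2 →L[ℂ] ℂ).contDiff
  exact this.restrict_scalars ℝ

lemma contDiffOn_pt {f g : E2 → ℂ} {s : Set E2}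
    (hf : ContDiffOn ℝ ((⊤ : ℕ∞) : WithTop ℕ∞) f s)
    (hg : ContDiffOn ℝ ((⊤ : ℕ∞) : WithTop ℕ∞) g s) :
    ContDiffOn ℝ ((⊤ : ℕ∞) : WithTop ℕ∞) (fun p => pt (f p) (g p)) s := by
  have h1 : ContDiffOn ℝ ((⊤ : ℕ∞) : WithTop ℕ∞) (fun p => ![f p, g p]) s := by
    rw [contDiffOn_pi]
    intro i
    fin_cases i
    · exact hf
    · exact hg
  exact (PiLp.contDiff_toLp (𝕜 := ℝ) (p := 2) (E := fun _ : Fin 2 => ℂ)).comp_contDiffOn h1

lemma fwd_contDiffOn : ContDiffOn ℝ ((⊤ : ℕ∞) : WithTop ℕ∞) fwd (dom U0) := by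
  have hm : MapsTo (fun p : E2 => p 0) (dom U0) (ball (0:ℂ) 1) :=
    fun p hp => mem_ball_zero_iff.2 hp.1
  apply contDiffOn_pt
  · exact be_contDiffOn.comp (contDiff_apply' 0).contDiffOn hm
  · apply be_contDiffOn.comp _ (fun p hp => scaled_mem hp)
    apply ContDiffOn.mul
    · apply Complex.ofRealCLM.contDiff.comp_contDiffOn
      apply Real.contDiff_exp.comp_contDiffOn
      exact (hU0.smooth.comp (contDiff_apply' 0).contDiffOn hm).neg
    · exact (contDiff_apply' 1).contDiffOn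

lemma bwd_contDiff : ContDiff ℝ ((⊤ : ℕ∞) : WithTop ℕ∞) bwd := by
  rw [← contDiffOn_univ]
  apply contDiffOn_pt
  · exact (al_contDiff.comp (contDiff_apply' 0)).contDiffOn
  · apply ContDiffOn.mul
    · apply Complex.ofRealCLM.contDiff.comp_contDiffOn
      apply Real.contDiff_exp.comp_contDiffOn
      exact hU0.smooth.comp (al_contDiff.comp (contDiff_apply' 0)).contDiffOn
        (fun q _ => al_mem _)
    · exact (al_contDiff.comp (contDiff_apply' 1)).contDiffOn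

/-- The manifold is homeomorphic to `E2`. -/
noncomputable def M0.homeo : M0 ≃ₜ E2 where
  toFun x := fwd x.val
  invFun q := M0.mk (bwd q) (bwd_mem q)
  left_inv x := M0.ext (bwd_fwd x.mem)
  right_inv q := fwd_bwd q
  continuous_toFun :=
    fwd_contDiffOn.continuousOn.comp_continuous M0.isOpenEmbedding.continuous (fun x => x.mem)
  continuous_invFun := bwd_contDiff.continuous.subtype_mk _

theorem M0.diffeo : ∃ e : M0 ≃ₜ E2, ∀ x : M0,
    ContDiffOn ℝ ((⊤ : ℕ∞) : WithTop ℕ∞) (fun z => e ((chartAt E2 x).symm z))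
      (chartAt E2 x).target ∧
    ContDiffOn ℝ ((⊤ : ℕ∞) : WithTop ℕ∞) (fun w => chartAt E2 x (e.symm w))
      (e '' (chartAt E2 x).source) := by
  refine ⟨M0.homeo, fun x => ⟨?_, ?_⟩⟩
  · rw [M0.chartAt_target]
    refine fwd_contDiffOn.congr ?_
    intro p hp
    rw [M0.chartAt_symm x hp]
    rfl
  · exact bwd_contDiff.contDiffOn

end Pool.Agent.Helper206
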