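import Mathlib
import Pool.Agent.Helper206.Diffeo

set_option autoImplicit false

namespace Pool.Agent.Helper206

open Set Metric Filter Topology
open scoped Manifold

theorem M0.convex (K : Set M0) (hK : IsCompact K) :
    IsCompact {x : M0 | ∀ f : M0 → ℂ, MDifferentiable 𝓘(ℂ, E2) 𝓘(ℂ, ℂ) f →
        ∀ c : ℝ, (∀ y ∈ K, ‖f y‖ ≤ c) → ‖f x‖ ≤ c} := by
  have hclosed : IsClosed {x : M0 | ∀ f : M0 → ℂ, MDifferentiable 𝓘(ℂ, E2) 𝓘(ℂ, ℂ) f →
        ∀ c : ℝ, (∀ y ∈ K, ‖f y‖ ≤ c) → ‖f x‖ ≤ c} := by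
    have : {x : M0 | ∀ f : M0 → ℂ, MDifferentiable 𝓘(ℂ, E2) 𝓘(ℂ, ℂ) f →
        ∀ c : ℝ, (∀ y ∈ K, ‖f y‖ ≤ c) → ‖f x‖ ≤ c} =
        ⋂ (f : M0 → ℂ) (_ : MDifferentiable 𝓘(ℂ, E2) 𝓘(ℂ, ℂ) f) (c : ℝ)
          (_ : ∀ y ∈ K, ‖f y‖ ≤ c), {x : M0 | ‖f x‖ ≤ c} := by
      ext x; simp
    rw [this]
    refine isClosed_iInter fun f => isClosed_iInter fun hf => isClosed_iInter fun c =>
      isClosed_iInter fun _ => ?_
    exact isClosed_le hf.continuous.norm continuous_const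
  rcases K.eq_empty_or_nonempty with hne | hne
  · have : {x : M0 | ∀ f : M0 → ℂ, MDifferentiable 𝓘(ℂ, E2) 𝓘(ℂ, ℂ) f →
        ∀ c : ℝ, (∀ y ∈ K, ‖f y‖ ≤ c) → ‖f x‖ ≤ c} = ∅ := by
      rw [Set.eq_empty_iff_forall_notMem]
      intro x hx
      have h := hx (fun _ => 0) mdifferentiable_const (-1) (by
        intro y hy; rw [hne] at hy; exact absurd hy (Set.notMem_empty y))
      rw [norm_zero] at h
      linarith
    rw [this]
    exact isCompact_empty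
  · have hKc : IsCompact (M0.val '' K) := hK.image M0.isOpenEmbedding.continuous
    have hKd : M0.val '' K ⊆ dom U0 := by
      rintro _ ⟨x, _, rfl⟩; exact x.mem
    obtain ⟨L, hL, hLd, hLx⟩ := hull_subset hU0 hKc hKd (hne.image _)
    have hL' : IsCompact (M0.val ⁻¹' L) := by
      rw [M0.isOpenEmbedding.isInducing.isCompact_iff, Set.image_preimage_eq_of_subset]
      · exact hL
      · rw [M0.range]; exact hLd
    refine hL'.of_isClosed_subset hclosed ?_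
    intro x hx
    apply hLx x.val x.mem
    intro F hF c hc
    apply hx (fun y => F y.val) (M0.mdiff_of hF) c
    intro y hy
    exact hc _ (mem_image_of_mem _ hy)

theorem M0.separates (x y : M0) (hxy : x ≠ y) : ∃ f : M0 → ℂ,
    MDifferentiable 𝓘(ℂ, E2) 𝓘(ℂ, ℂ) f ∧ f x ≠ f y := by
  by_cases h0 : x.val 0 = y.val 0
  · refine ⟨fun z => z.val 1, M0.mdiff_of (diff_apply 1).differentiableOn, ?_⟩
    intro h1
    exact hxy (M0.ext (ext2 h0 h1))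
  · exact ⟨fun z => z.val 0, M0.mdiff_of (diff_apply 0).differentiableOn, h0⟩

theorem M0.coords (x : M0) : ∃ F : M0 → E2,
    MDifferentiable 𝓘(ℂ, E2) 𝓘(ℂ, E2) F ∧
      Function.Injective (mfderiv 𝓘(ℂ, E2) 𝓘(ℂ, E2) F x) :=
  ⟨M0.val, M0.mdifferentiable_val, M0.mfderiv_inj x⟩

theorem M0.hyp (x y : M0) (hxy : x ≠ y) : ∃ ε : ℝ, 0 < ε ∧
    ∀ (k : ℕ) (p : Fin (k + 1) → M0) (g : Fin k → ℂ → M0) (a b : Fin k → ℂ),
      p 0 = x → p (Fin.last k) = y →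
      (∀ i : Fin k,
        MDifferentiableOn 𝓘(ℂ, ℂ) 𝓘(ℂ, E2) (g i) (Metric.ball (0 : ℂ) 1) ∧
        a i ∈ Metric.ball (0 : ℂ) 1 ∧ b i ∈ Metric.ball (0 : ℂ) 1 ∧
        g i (a i) = p i.castSucc ∧ g i (b i) = p i.succ) →
      ε ≤ ∑ i : Fin k, cost (a i) (b i) := by
  obtain ⟨ε, hε, H⟩ := hyp_chain hU0.smooth.continuousOn x.mem
    (fun h => hxy (M0.ext h) : x.val ≠ y.val)
  refine ⟨ε, hε, ?_⟩
  intro k p g a b hp0 hpl hi
  apply H k (fun j => (p j).val) (fun i z => (g i z).val) a b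
  · simp only [hp0]
  · simp only [hpl]
  · intro i
    obtain ⟨h1, h2, h3, h4, h5⟩ := hi i
    refine ⟨M0.disc h1, fun z _ => (g i z).mem, h2, h3, ?_, ?_⟩
    · simp only [h4]
    · simp only [h5]

theorem M0.not_carath : ∃ x y : M0, x ≠ y ∧ ∀ f : M0 → ℂ,
    MDifferentiable 𝓘(ℂ, E2) 𝓘(ℂ, ℂ) f → (∃ C : ℝ, ∀ z : M0, ‖f z‖ ≤ C) → f x = f y := by
  have hm : pt 0 (1/2) ∈ dom U0 := by
    rw [pt_mem]
    refine ⟨by simp, ?_⟩
    have := hU0.nonneg 0 (mem_ball_self one_pos)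
    have h2 := Real.one_le_exp this
    have h3 : ‖(1/2 : ℂ)‖ < 1 := by norm_num
    linarith
  refine ⟨M0.mk _ hm, M0.mk _ zero_mem, ?_, ?_⟩
  · intro h
    have h1 := congrArg (fun x : M0 => x.val 1) h
    simp at h1
  · rintro f hf ⟨C, hC⟩
    obtain ⟨F, hF, hFf⟩ := M0.exists_ext hf
    rw [← hFf, ← hFf, M0.val_mk, M0.val_mk]
    apply bounded_indep hU0 hF (B := C)
    · intro p hp
      have := hFf (M0.mk p hp)
      rw [M0.val_mk] at this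
      rw [this]
      exact hC _
    · norm_num
    · exact mem_ball_self one_pos

end Pool.Agent.Helper206
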